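import Pool.Agent.K9h65.MD.Up2

/-! Leaf ASM: pointwise lower bound for one map. -/

set_option autoImplicit false

namespace Pool.Agent.K9h65.MD

open Filter Topology

theorem IsMod.nonneg' {w : ℝ → ℝ} (hw : IsMod w) {t : ℝ} (ht : 0 ≤ t) : 0 ≤ w t := by
  have h := hw.mono (Set.mem_Ici.2 le_rfl) (Set.mem_Ici.2 ht) ht
  rwa [hw.zero] at h

theorem IsMod.smul' {w : ℝ → ℝ} (hw : IsMod w) {K : ℝ} (hK : 0 < K) :
    IsMod (fun t => K * w t) where
  conc := by
    have := hw.conc.smul hK.le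
    exact this
  mono := fun x hx y hy hxy => mul_le_mul_of_nonneg_left (hw.mono hx hy hxy) hK.le
  zero := by simp [hw.zero]
  lim := by
    have := hw.lim.const_mul K
    simpa using this
  pos := mul_pos hK hw.pos

theorem asm (hcon : S_CON2) (hbr : S_BR) (hseq : S_SEQ2) : S_ASM := by
  intro w hw
  obtain ⟨K, b, N, hK0, hb0, hb, hblim, hN, hlen, hNe, hNw⟩ := hseq w hw
  have hw1 := hw.pos
  have hw' := hw.smul' hK0
  obtain ⟨φ, hφ, hform⟩ := hcon (fun t => K * w t) hw' b N hb0 hb hblim hN hlen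
  have hb1 : ∀ k, b k ≤ 1 := by
    intro k
    induction k with
    | zero => exact hb0.le
    | succ k ih => linarith [(hb k).2]
  have hK' : 0 < K * (2 + 1 / (K * w 1)) := by positivity
  have hm : HasMod w (K * (2 + 1 / (K * w 1))) φ := by
    intro x y
    have h1 := hφ x y
    refine h1.trans (le_of_eq ?_)
    ring
  refine ⟨φ, _, hK', hm, 1 + Real.log (8 * w 1), fun ε hε hε1 => ?_⟩
  have hlog : Real.log ε < 0 := Real.log_neg hε hε1
  set L : ℝ := |Real.log ε| with hL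
  have hL' : L = - Real.log ε := abs_of_neg hlog
  have hLpos : 0 < L := by rw [hL']; linarith
  obtain ⟨k, hk1, hk2⟩ : ∃ k : ℕ, (k : ℝ) < L ∧ L ≤ k + 1 := by
    refine ⟨⌈L⌉₊ - 1, ?_, ?_⟩
    · have h1 : 1 ≤ ⌈L⌉₊ := Nat.one_le_iff_ne_zero.2 (Nat.ceil_pos.2 hLpos).ne'
      have h2 : ((⌈L⌉₊ - 1 : ℕ) : ℝ) = (⌈L⌉₊ : ℝ) - 1 := by push_cast [h1]; ring
      rw [h2]
      linarith [Nat.ceil_lt_add_one hLpos.le]
    · have h1 : 1 ≤ ⌈L⌉₊ := Nat.one_le_iff_ne_zero.2 (Nat.ceil_pos.2 hLpos).ne'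
      have h2 : ((⌈L⌉₊ - 1 : ℕ) : ℝ) = (⌈L⌉₊ : ℝ) - 1 := by push_cast [h1]; ring
      rw [h2]
      linarith [Nat.le_ceil L]
  set e : ℝ := Real.exp (-(k : ℝ)) with he
  have hepos : 0 < e := Real.exp_pos _
  have hεe : ε < e := by
    rw [he, ← Real.log_lt_iff_lt_exp hε]
    linarith
  have heε : Real.log e = -(k : ℝ) := Real.log_exp _
  have hwe : 0 < w e := by
    have h1 : e ≤ 1 := by
      rw [he]
      exact Real.exp_le_one_iff.2 (by linarith [(Nat.cast_nonneg k : (0:ℝ) ≤ k)])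
    have h2 := UbAux.slope hw hepos h1
    have h3 : 0 < w e / e := lt_of_lt_of_le hw1 h2
    exact (div_pos_iff_of_pos_right hepos).1 h3
  have hwε : 0 < w ε := by
    have h2 := UbAux.slope hw hε hε1.le
    have h3 : 0 < w ε / ε := lt_of_lt_of_le hw1 h2
    exact (div_pos_iff_of_pos_right hε).1 h3
  set M : ℝ := (((N k + 1) / 2 : ℕ) : ℝ) with hM
  have hM1 : 1 ≤ M := by
    have h1 := hN k
    have : 1 ≤ (N k + 1) / 2 := by omega
    rw [hM]
    exact_mod_cast this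
  -- the rate
  have hrate : ((Real.log M : ℝ) : EReal) ≤ sepRate φ ε := by
    rcases hNe k with h | h
    · have h1 : M = 1 := by rw [hM, h]; norm_num
      rw [h1, Real.log_one]
      exact rate_nonneg φ ε
    · exact hbr φ (b (k + 1)) (b k) (N k) ε (hb k).1.le (hb k).2 (hb1 k) (hN k)
        (fun x hx1 hx2 => hform k x hx1 hx2) hε (lt_of_lt_of_le hεe h)
  refine le_trans (EReal.coe_le_coe_iff.2 ?_) hrate
  -- real inequality
  have h1 : Real.log (w ε / ε) ≤ Real.log (w e / e) + 1 := by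
    rw [Real.log_div hwε.ne' hε.ne', Real.log_div hwe.ne' hepos.ne', heε]
    have h2 : Real.log (w ε) ≤ Real.log (w e) :=
      Real.log_le_log hwε (hw.mono (Set.mem_Ici.2 hε.le) (Set.mem_Ici.2 hepos.le) hεe.le)
    linarith
  have hk0 : (0 : ℝ) ≤ k := Nat.cast_nonneg k
  have h3 : w e / e ≤ (8 * w 1) * (1 + L) ^ 2 * M := by
    refine (hNw k).trans ?_
    have h4 : ((k : ℝ) + 1) * ((k : ℝ) + 2) ≤ 2 * (1 + L) ^ 2 := by nlinarith
    calc 4 * w 1 * ((k : ℝ) + 1) * ((k : ℝ) + 2) * M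
        = (4 * w 1) * (((k : ℝ) + 1) * ((k : ℝ) + 2)) * M := by ring
      _ ≤ (4 * w 1) * (2 * (1 + L) ^ 2) * M := by gcongr
      _ = (8 * w 1) * (1 + L) ^ 2 * M := by ring
  have h5 : Real.log (w e / e) ≤ Real.log (8 * w 1) + 2 * Real.log (1 + L) + Real.log M := by
    have h6 : Real.log ((8 * w 1) * (1 + L) ^ 2 * M) =
        Real.log (8 * w 1) + 2 * Real.log (1 + L) + Real.log M := by
      rw [Real.log_mul (by positivity) (by positivity), Real.log_mul (by positivity) (by positivity),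
        Real.log_pow]
      push_cast
      ring
    rw [← h6]
    exact Real.log_le_log (by positivity) h3
  linarith

end Pool.Agent.K9h65.MD
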