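import Pool.Agent.K9h65.MD.Stm

/-!
# Leaf BR: the branches of the zigzag
-/

set_option autoImplicit false

namespace Pool.Agent.K9h65.MD

open Filter Topology

namespace BrAux

theorem tri_add (i : ℕ) (s : ℝ) (h0 : 0 ≤ s) (h1 : s ≤ 1) : tri (2 * i + s) = s := by
  unfold tri
  rcases lt_or_eq_of_le h1 with h | h
  · have hr : round ((2 * (i : ℝ) + s) / 2) = (i : ℤ) := by
      rw [round_eq, Int.floor_eq_iff]
      constructor
      · push_cast
        linarith
      · push_cast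
        linarith
    rw [hr]
    push_cast
    rw [show 2 * (i : ℝ) + s - 2 * i = s by ring, abs_of_nonneg h0]
  · subst h
    have hr : round ((2 * (i : ℝ) + 1) / 2) = (i : ℤ) + 1 := by
      rw [round_eq, Int.floor_eq_iff]
      constructor
      · push_cast
        linarith
      · push_cast
        linarith
    rw [hr]
    push_cast
    rw [show 2 * (i : ℝ) + 1 - 2 * (i + 1) = -1 by ring, abs_neg, abs_one]

/-- the position of the `i`-th preimage -/
noncomputable def pre (a c : ℝ) (N i : ℕ) (y : ℝ) : ℝ := a + (2 * i * (c - a) + (y - a)) / N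

theorem pre_mem {a c : ℝ} {N i : ℕ} {y : ℝ} (hac : a < c) (hN : 2 * i + 1 ≤ N) (h1 : a ≤ y) (h2 : y ≤ c) :
    a ≤ pre a c N i y ∧ pre a c N i y ≤ c := by
  have hN0 : (0 : ℝ) < N := by
    have : 0 < N := by omega
    exact_mod_cast this
  have hNr : 2 * (i : ℝ) + 1 ≤ N := by exact_mod_cast hN
  have hi : (0 : ℝ) ≤ i := Nat.cast_nonneg i
  unfold pre
  constructor
  · have : 0 ≤ (2 * (i : ℝ) * (c - a) + (y - a)) / N := by
      apply div_nonneg _ hN0.le
      have := mul_nonneg hi (sub_nonneg.2 hac.le)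
      linarith
    linarith
  · have : (2 * (i : ℝ) * (c - a) + (y - a)) / N ≤ c - a := by
      rw [div_le_iff₀ hN0]
      have := mul_le_mul_of_nonneg_right hNr (sub_nonneg.2 hac.le)
      nlinarith
    linarith

end BrAux

open BrAux in
theorem br (h : S_SYM) : S_BR := by
  intro φ a c N ε ha hac hc1 hN hφ hε hεN
  have hN1 : 1 ≤ N := by omega
  have hN0 : (0 : ℝ) < N := by exact_mod_cast hN1
  have hl : 0 < c - a := sub_pos.2 hac
  have hi : ∀ i : Fin ((N + 1) / 2), 2 * (i : ℕ) + 1 ≤ N := by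
    intro i
    have := i.2
    omega
  let J : Set I := {x : I | a ≤ x ∧ (x : ℝ) ≤ c}
  let g : Fin ((N + 1) / 2) → I → I := fun i y =>
    Set.projIcc (0 : ℝ) 1 zero_le_one (pre a c N i y)
  have hg : ∀ i, ∀ y ∈ J, ((g i y : I) : ℝ) = pre a c N i y := by
    intro i y hy
    have h1 := pre_mem hac (hi i) hy.1 hy.2
    change ((Set.projIcc (0 : ℝ) 1 zero_le_one (pre a c N i y) : I) : ℝ) = _
    rw [Set.projIcc_of_mem zero_le_one ⟨ha.trans h1.1, h1.2.trans hc1⟩]
  refine h φ ((N + 1) / 2) ε J g (by omega) hε ⟨⟨a, ha, by linarith⟩, le_refl _, hac.le⟩ ?_ ?_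
  · intro i y hy
    have h1 := pre_mem hac (hi i) hy.1 hy.2
    have h2 : a ≤ ((g i y : I) : ℝ) ∧ ((g i y : I) : ℝ) ≤ c := by
      rw [hg i y hy]
      exact h1
    refine ⟨h2, ?_⟩
    apply Subtype.ext
    rw [hφ (g i y) h2.1 h2.2, hg i y hy]
    have h3 : (N : ℝ) * (pre a c N i y - a) / (c - a) = 2 * (i : ℕ) + ((y : ℝ) - a) / (c - a) := by
      unfold pre
      field_simp
      ring
    rw [h3, tri_add _ _ (div_nonneg (sub_nonneg.2 hy.1) hl.le)
      ((div_le_one hl).2 (by linarith [hy.2]))]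
    field_simp
    ring
  · intro i i' hii y hy y' hy'
    rw [hg i y hy, hg i' y' hy']
    refine lt_of_lt_of_le hεN ?_
    have h1 : pre a c N i y - pre a c N i' y' =
        (2 * (((i : ℕ) : ℝ) - (i' : ℕ)) * (c - a) + ((y : ℝ) - y')) / N := by
      unfold pre
      field_simp
      ring
    rw [h1, abs_div, abs_of_pos hN0]
    apply div_le_div_of_nonneg_right _ hN0.le
    have h2 : |(y : ℝ) - y'| ≤ c - a := by
      rw [abs_le]
      constructor <;> linarith [hy.1, hy.2, hy'.1, hy'.2]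
    have h3 : 1 ≤ |((i : ℕ) : ℝ) - (i' : ℕ)| := by
      have h4 : ((i : ℕ) : ℤ) - (i' : ℕ) ≠ 0 := by
        intro h5
        apply hii
        apply Fin.ext
        omega
      have h5 := Int.one_le_abs h4
      have h6 : ((1 : ℤ) : ℝ) ≤ ((|((i : ℕ) : ℤ) - (i' : ℕ)| : ℤ) : ℝ) := by exact_mod_cast h5
      push_cast at h6
      exact h6
    have h4 : 2 * (c - a) ≤ |2 * (((i : ℕ) : ℝ) - (i' : ℕ)) * (c - a)| := by
      rw [abs_mul, abs_mul, abs_two, abs_of_pos hl]
      nlinarith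
    have h5 := abs_sub_abs_le_abs_sub (2 * (((i : ℕ) : ℝ) - (i' : ℕ)) * (c - a)) (-((y : ℝ) - y'))
    rw [abs_neg, sub_neg_eq_add] at h5
    linarith

end Pool.Agent.K9h65.MD
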