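import Pool.Agent.K9h65.MD.Stm

/-! Leaf CON: the zigzag map. -/

set_option autoImplicit false

namespace Pool.Agent.K9h65.MD

open Filter Topology

namespace ConLeaf

theorem tri_eq (t : ℝ) : tri t = 2 * |t / 2 - round (t / 2)| := by
  unfold tri
  have h : t - 2 * (round (t / 2) : ℝ) = 2 * (t / 2 - round (t / 2)) := by ring
  rw [h, abs_mul, abs_two]

theorem tri_nonneg (t : ℝ) : 0 ≤ tri t := abs_nonneg _

theorem tri_le (t : ℝ) (m : ℤ) : tri t ≤ |t - 2 * m| := by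
  rw [tri_eq]
  have h := round_le (t / 2) m
  have e : t - 2 * (m : ℝ) = 2 * (t / 2 - m) := by ring
  rw [e, abs_mul, abs_two]
  linarith

theorem tri_le_one (t : ℝ) : tri t ≤ 1 := by
  rw [tri_eq]
  have h := abs_sub_round (t / 2)
  linarith

theorem tri_zero : tri 0 = 0 := by
  have h := tri_le 0 0
  have h2 := tri_nonneg 0
  simp at h
  linarith

theorem tri_odd (N : ℕ) (hN : N % 2 = 1) : tri N = 1 := by
  refine le_antisymm (tri_le_one _) ?_
  unfold tri
  generalize round ((N : ℝ) / 2) = z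
  have h1 : (1 : ℤ) ≤ |(N : ℤ) - 2 * z| := by
    have : (N : ℤ) - 2 * z ≠ 0 := by omega
    exact Int.one_le_abs this
  exact_mod_cast h1

theorem tri_lip (s t : ℝ) : |tri s - tri t| ≤ |s - t| := by
  have key : ∀ s t : ℝ, tri s ≤ |s - t| + tri t := by
    intro s t
    have h := tri_le s (round (t / 2))
    have h2 : |s - 2 * (round (t / 2) : ℝ)| ≤ |s - t| + |t - 2 * (round (t / 2) : ℝ)| :=
      abs_sub_le _ _ _
    exact h.trans h2
  rw [abs_sub_le_iff]
  have h1 := key s t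
  have h2 := key t s
  rw [abs_sub_comm t s] at h2
  constructor <;> linarith

/-- the zigzag on `[a, a + l]` -/
noncomputable def Z (a l : ℝ) (N : ℕ) (x : ℝ) : ℝ := a + l * tri (N * (x - a) / l)

theorem Z_left (a l : ℝ) (N : ℕ) : Z a l N a = a := by
  unfold Z
  rw [sub_self, mul_zero, zero_div, tri_zero, mul_zero, add_zero]

theorem Z_right (a c : ℝ) (N : ℕ) (h : a < c) (hN : N % 2 = 1) : Z a (c - a) N c = c := by
  unfold Z
  have : (N : ℝ) * (c - a) / (c - a) = N := by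
    have : c - a ≠ 0 := (sub_pos.2 h).ne'
    field_simp
  rw [this, tri_odd N hN]
  ring

theorem Z_mem (a l : ℝ) (N : ℕ) (hl : 0 < l) (x : ℝ) : a ≤ Z a l N x ∧ Z a l N x ≤ a + l := by
  unfold Z
  have h1 := tri_nonneg (N * (x - a) / l)
  have h2 := tri_le_one (N * (x - a) / l)
  constructor <;> nlinarith

theorem Z_diff (a l : ℝ) (N : ℕ) (hl : 0 < l) (x y : ℝ) :
    |Z a l N x - Z a l N y| ≤ l ∧ |Z a l N x - Z a l N y| ≤ N * |x - y| := by
  have e : Z a l N x - Z a l N y = l * (tri (N * (x - a) / l) - tri (N * (y - a) / l)) := by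
    unfold Z
    ring
  rw [e, abs_mul, abs_of_pos hl]
  constructor
  · have h1 : |tri (N * (x - a) / l) - tri (N * (y - a) / l)| ≤ 1 := by
      rw [abs_le]
      have := tri_nonneg (N * (x - a) / l)
      have := tri_nonneg (N * (y - a) / l)
      have := tri_le_one (N * (x - a) / l)
      have := tri_le_one (N * (y - a) / l)
      constructor <;> linarith
    nlinarith
  · have h1 := tri_lip (N * (x - a) / l) (N * (y - a) / l)
    have e2 : (N : ℝ) * (x - a) / l - N * (y - a) / l = (N * (x - y)) / l := by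
      rw [← sub_div]
      congr 1
      ring
    rw [e2, abs_div, abs_of_pos hl, abs_mul, Nat.abs_cast] at h1
    calc l * |tri (N * (x - a) / l) - tri (N * (y - a) / l)| ≤ l * (N * |x - y| / l) :=
          mul_le_mul_of_nonneg_left h1 hl.le
      _ = N * |x - y| := by field_simp

variable {w : ℝ → ℝ}

theorem w_nonneg (hw : IsMod w) (t : ℝ) (ht : 0 ≤ t) : 0 ≤ w t := by
  have := hw.mono (Set.mem_Ici.2 le_rfl) (Set.mem_Ici.2 ht) ht
  rwa [hw.zero] at this

theorem w_div (hw : IsMod w) (s t : ℝ) (hs : 0 ≤ s) (hst : s ≤ t) (ht : 0 < t) :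
    w t * s ≤ w s * t := by
  have ha : (0:ℝ) ≤ 1 - s / t := by
    rw [sub_nonneg, div_le_one ht]
    exact hst
  have hb : (0:ℝ) ≤ s / t := by positivity
  have hab : (1 - s / t) + s / t = 1 := by ring
  have h := hw.conc.2 (Set.mem_Ici.2 (le_refl (0:ℝ))) (Set.mem_Ici.2 ht.le) ha hb hab
  rw [hw.zero] at h
  simp only [smul_eq_mul, mul_zero, zero_add] at h
  rw [div_mul_cancel₀ _ ht.ne'] at h
  have h2 : s / t * w t * t = s * w t := by
    field_simp
  nlinarith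

theorem Z_mod (hw : IsMod w) (a l : ℝ) (N : ℕ) (hN : N % 2 = 1) (hl : 0 < l)
    (h : l ≤ w (l / N)) (x y : ℝ) : |Z a l N x - Z a l N y| ≤ w |x - y| := by
  obtain ⟨h1, h2⟩ := Z_diff a l N hl x y
  have hN0 : (0 : ℝ) < N := by
    have : 0 < N := by omega
    exact_mod_cast this
  have hlN : 0 < l / N := by positivity
  rcases le_or_gt (l / N) |x - y| with hd | hd
  · exact h1.trans (h.trans (hw.mono (Set.mem_Ici.2 hlN.le) (Set.mem_Ici.2 (abs_nonneg _)) hd))
  · refine h2.trans ?_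
    have h3 := w_div hw |x - y| (l / N) (abs_nonneg _) hd.le hlN
    have h4 : l * |x - y| ≤ w |x - y| * (l / N) :=
      (mul_le_mul_of_nonneg_right h (abs_nonneg _)).trans h3
    have h5 : w |x - y| * (l / N) = l * (w |x - y| / N) := by ring
    rw [h5] at h4
    have h6 := le_of_mul_le_mul_left h4 hl
    rw [le_div_iff₀ hN0] at h6
    linarith

section

variable (b : ℕ → ℝ) (N : ℕ → ℕ)

open Classical in
/-- the map -/
noncomputable def F (x : ℝ) : ℝ :=
  if h : ∃ k, b (k + 1) < x then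
    Z (b (Nat.find h + 1)) (b (Nat.find h) - b (Nat.find h + 1)) (N (Nat.find h)) x else x

variable {b} {N}

theorem b_pos (h0 : b 0 = 1) (hb : ∀ k, 0 < b (k + 1) ∧ b (k + 1) ≤ b k / 2) (k : ℕ) : 0 < b k := by
  cases k with
  | zero => rw [h0]; norm_num
  | succ k => exact (hb k).1

theorem b_lt (h0 : b 0 = 1) (hb : ∀ k, 0 < b (k + 1) ∧ b (k + 1) ≤ b k / 2) (k : ℕ) :
    b (k + 1) < b k := by
  have := (hb k).2
  have := b_pos h0 hb k
  linarith

theorem b_anti (h0 : b 0 = 1) (hb : ∀ k, 0 < b (k + 1) ∧ b (k + 1) ≤ b k / 2) : StrictAnti b :=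
  strictAnti_nat_of_succ_lt (b_lt h0 hb)

theorem b_pow (h0 : b 0 = 1) (hb : ∀ k, 0 < b (k + 1) ∧ b (k + 1) ≤ b k / 2) (k : ℕ) :
    b k ≤ (1 / 2) ^ k := by
  induction k with
  | zero => rw [h0]; norm_num
  | succ k ih =>
    have := (hb k).2
    rw [pow_succ]
    linarith

theorem exists_k (h0 : b 0 = 1) (hb : ∀ k, 0 < b (k + 1) ∧ b (k + 1) ≤ b k / 2) (x : ℝ)
    (hx : 0 < x) : ∃ k, b (k + 1) < x := by
  obtain ⟨n, hn⟩ := exists_pow_lt_of_lt_one hx (by norm_num : (1 / 2 : ℝ) < 1)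
  exact ⟨n, ((b_lt h0 hb n).trans_le (b_pow h0 hb n)).trans hn⟩

theorem F_eq (h0 : b 0 = 1) (hb : ∀ k, 0 < b (k + 1) ∧ b (k + 1) ≤ b k / 2)
    (hN : ∀ k, N k % 2 = 1) (k : ℕ) (x : ℝ) (h1 : b (k + 1) ≤ x) (h2 : x ≤ b k) :
    F b N x = Z (b (k + 1)) (b k - b (k + 1)) (N k) x := by
  classical
  have hx : 0 < x := (hb k).1.trans_le h1
  have hex := exists_k h0 hb x hx
  unfold F
  rw [dif_pos hex]
  rcases eq_or_lt_of_le h1 with h | h
  · have hf : Nat.find hex = k + 1 := by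
      rw [Nat.find_eq_iff]
      refine ⟨by rw [← h]; exact b_lt h0 hb _, fun n hn => ?_⟩
      rw [not_lt, ← h]
      exact (b_anti h0 hb).antitone (by omega)
    rw [hf, ← h, Z_left, Z_right _ _ _ (b_lt h0 hb _) (hN _)]
  · have hf : Nat.find hex = k := by
      rw [Nat.find_eq_iff]
      refine ⟨h, fun n hn => ?_⟩
      rw [not_lt]
      exact h2.trans ((b_anti h0 hb).antitone (by omega))
    rw [hf]

theorem F_zero (hb : ∀ k, 0 < b (k + 1) ∧ b (k + 1) ≤ b k / 2) : F b N 0 = 0 := by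
  unfold F
  rw [dif_neg]
  rintro ⟨k, hk⟩
  linarith [(hb k).1]

theorem F_b (h0 : b 0 = 1) (hb : ∀ k, 0 < b (k + 1) ∧ b (k + 1) ≤ b k / 2)
    (hN : ∀ k, N k % 2 = 1) (k : ℕ) : F b N (b k) = b k := by
  rw [F_eq h0 hb hN k (b k) (b_lt h0 hb k).le le_rfl, Z_right _ _ _ (b_lt h0 hb _) (hN _)]

theorem find_k (h0 : b 0 = 1) (hb : ∀ k, 0 < b (k + 1) ∧ b (k + 1) ≤ b k / 2) (x : ℝ)
    (hx : 0 < x) (hx1 : x ≤ 1) : ∃ k, b (k + 1) < x ∧ x ≤ b k := by
  classical
  have hex := exists_k h0 hb x hx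
  refine ⟨Nat.find hex, Nat.find_spec hex, ?_⟩
  rcases Nat.eq_zero_or_pos (Nat.find hex) with h | h
  · rw [h, h0]
    exact hx1
  · have := Nat.find_min hex (m := Nat.find hex - 1) (by omega)
    rw [Nat.sub_add_cancel h, not_lt] at this
    exact this

theorem F_mem (h0 : b 0 = 1) (hb : ∀ k, 0 < b (k + 1) ∧ b (k + 1) ≤ b k / 2)
    (hN : ∀ k, N k % 2 = 1) (x : ℝ) (hx : 0 ≤ x) (hx1 : x ≤ 1) : F b N x ∈ Set.Icc (0:ℝ) 1 := by
  rcases eq_or_lt_of_le hx with h | h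
  · rw [← h, F_zero hb]
    simp
  · obtain ⟨k, hk1, hk2⟩ := find_k h0 hb x h hx1
    rw [F_eq h0 hb hN k x hk1.le hk2]
    obtain ⟨h1, h2⟩ := Z_mem (b (k + 1)) (b k - b (k + 1)) (N k) (by linarith [b_lt h0 hb k]) x
    have h3 : b k ≤ 1 := by
      rw [← h0]
      exact (b_anti h0 hb).antitone (Nat.zero_le _)
    exact ⟨(hb k).1.le.trans h1, by linarith⟩

theorem F_same (hw : IsMod w) (h0 : b 0 = 1) (hb : ∀ k, 0 < b (k + 1) ∧ b (k + 1) ≤ b k / 2)
    (hN : ∀ k, N k % 2 = 1) (hNw : ∀ k, b k - b (k + 1) ≤ w ((b k - b (k + 1)) / N k))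
    (k : ℕ) (x y : ℝ) (hx : b (k + 1) ≤ x) (hx2 : x ≤ b k) (hy : b (k + 1) ≤ y) (hy2 : y ≤ b k) :
    |F b N x - F b N y| ≤ w |x - y| := by
  rw [F_eq h0 hb hN k x hx hx2, F_eq h0 hb hN k y hy hy2]
  exact Z_mod hw _ _ _ (hN k) (by linarith [b_lt h0 hb k]) (hNw k) x y

theorem w_lin (hw : IsMod w) (t : ℝ) (h : 0 ≤ t) (h1 : t ≤ 1) : t ≤ 1 / w 1 * w t := by
  have := w_div hw t 1 h h1 one_pos
  rw [mul_one] at this
  rw [div_mul_eq_mul_div, one_mul, le_div_iff₀ hw.pos]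
  linarith

theorem w_mono (hw : IsMod w) (s t : ℝ) (hs : 0 ≤ s) (h : s ≤ t) : w s ≤ w t :=
  hw.mono (Set.mem_Ici.2 hs) (Set.mem_Ici.2 (hs.trans h)) h

theorem F_mod (hw : IsMod w) (h0 : b 0 = 1) (hb : ∀ k, 0 < b (k + 1) ∧ b (k + 1) ≤ b k / 2)
    (hN : ∀ k, N k % 2 = 1) (hNw : ∀ k, b k - b (k + 1) ≤ w ((b k - b (k + 1)) / N k))
    (x y : ℝ) (hx : 0 ≤ x) (hxy : x < y) (hy : y ≤ 1) :
    |F b N x - F b N y| ≤ (2 + 1 / w 1) * w (y - x) := by
  obtain ⟨j, hj1, hj2⟩ := find_k h0 hb y (hx.trans_lt hxy) hy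
  have hw0 : 0 ≤ w (y - x) := w_nonneg hw _ (by linarith)
  have hwl := w_lin hw (y - x) (by linarith) (by linarith)
  have h1w : 0 ≤ 1 / w 1 := by
    have := hw.pos
    positivity
  rcases lt_or_ge x (b (j + 1)) with hxj | hxj
  · -- different intervals
    have hq := F_b h0 hb hN (j + 1)
    have hB : |b (j + 1) - F b N y| ≤ w (y - x) := by
      have h := F_same hw h0 hb hN hNw j (b (j + 1)) y le_rfl (b_lt h0 hb j).le hj1.le hj2
      rw [hq, abs_sub_comm (b (j + 1)) y, abs_of_pos (by linarith : 0 < y - b (j + 1))] at h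
      exact h.trans (w_mono hw _ _ (by linarith) (by linarith))
    have hA : ∃ p, x ≤ p ∧ p ≤ b (j + 1) ∧ |F b N x - p| ≤ w (y - x) := by
      rcases eq_or_lt_of_le hx with h | h
      · refine ⟨0, by rw [← h], (hb j).1.le, ?_⟩
        rw [← h, F_zero hb, sub_zero, abs_zero]
        rw [← h, sub_zero] at hw0
        simpa using hw0
      · obtain ⟨i, hi1, hi2⟩ := find_k h0 hb x h (by linarith)
        have hij : j + 1 ≤ i := by
          by_contra hcon
          have : b (j + 1) ≤ b (i + 1) := (b_anti h0 hb).antitone (by omega)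
          linarith
        refine ⟨b i, hi2, (b_anti h0 hb).antitone hij, ?_⟩
        have h' := F_same hw h0 hb hN hNw i x (b i) hi1.le hi2 (b_lt h0 hb i).le le_rfl
        rw [F_b h0 hb hN i, abs_sub_comm x (b i), abs_of_nonneg (by linarith : 0 ≤ b i - x)] at h'
        have h4 : b i ≤ b (j + 1) := (b_anti h0 hb).antitone hij
        exact h'.trans (w_mono hw _ _ (by linarith) (by linarith))
    obtain ⟨p, hp1, hp2, hp3⟩ := hA
    have e : F b N x - F b N y = (F b N x - p) + (p - b (j + 1)) + (b (j + 1) - F b N y) := by ring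
    have h5 : |p - b (j + 1)| ≤ y - x := by
      rw [abs_sub_comm, abs_of_nonneg (by linarith)]
      linarith
    rw [e]
    calc |(F b N x - p) + (p - b (j + 1)) + (b (j + 1) - F b N y)|
        ≤ |F b N x - p| + |p - b (j + 1)| + |b (j + 1) - F b N y| := abs_add_three _ _ _
      _ ≤ w (y - x) + (y - x) + w (y - x) := by linarith
      _ ≤ (2 + 1 / w 1) * w (y - x) := by linarith
  · have h := F_same hw h0 hb hN hNw j x y hxj (hxy.le.trans hj2) hj1.le hj2
    rw [abs_sub_comm x y, abs_of_pos (by linarith : 0 < y - x)] at h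
    refine h.trans ?_
    have : 0 ≤ 1 / w 1 * w (y - x) := mul_nonneg h1w hw0
    linarith

end

end ConLeaf

open ConLeaf in
theorem con : S_CON := by
  intro w hw b N h0 hb hN hNw
  refine ⟨fun x => ⟨F b N x, F_mem h0 hb hN x x.2.1 x.2.2⟩, ?_, ?_⟩
  · intro x y
    change |F b N x - F b N y| ≤ (2 + 1 / w 1) * w |(x : ℝ) - (y : ℝ)|
    rcases lt_trichotomy (x : ℝ) (y : ℝ) with h | h | h
    · rw [abs_sub_comm (x : ℝ) (y : ℝ), abs_of_pos (sub_pos.2 h)]
      exact F_mod hw h0 hb hN hNw x y x.2.1 h y.2.2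
    · rw [h, sub_self, sub_self, abs_zero, hw.zero, mul_zero]
    · rw [abs_sub_comm (F b N x), abs_of_pos (sub_pos.2 h)]
      exact F_mod hw h0 hb hN hNw y x y.2.1 h x.2.2
  · intro k x h1 h2
    exact F_eq h0 hb hN k x h1 h2

end Pool.Agent.K9h65.MD
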