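import Pool.Agent.K9h65.MD.Stm2
import Pool.Agent.K9h65.MD.ConMap

/-! Leaf CON: the zigzag map. -/

set_option autoImplicit false

namespace Pool.Agent.K9h65.MD

open Filter Topology

namespace ConLeaf2

open ConLeaf hiding F b_pos b_lt b_anti b_pow exists_k F_eq F_zero F_b find_k F_mem F_same F_mod

variable {w : ℝ → ℝ}

section

variable (b : ℕ → ℝ) (N : ℕ → ℕ)

open Classical in
/-- the map -/
noncomputable def F (x : ℝ) : ℝ :=
  if h : ∃ k, b (k + 1) < x then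
    Z (b (Nat.find h + 1)) (b (Nat.find h) - b (Nat.find h + 1)) (N (Nat.find h)) x else x

variable {b} {N}

theorem b_pos (h0 : b 0 = 1) (hb : ∀ k, 0 < b (k + 1) ∧ b (k + 1) < b k) (hl : Tendsto b atTop (𝓝 0)) (k : ℕ) : 0 < b k := by
  cases k with
  | zero => rw [h0]; norm_num
  | succ k => exact (hb k).1

theorem b_lt (h0 : b 0 = 1) (hb : ∀ k, 0 < b (k + 1) ∧ b (k + 1) < b k) (hl : Tendsto b atTop (𝓝 0)) (k : ℕ) :
    b (k + 1) < b k := (hb k).2

theorem b_anti (h0 : b 0 = 1) (hb : ∀ k, 0 < b (k + 1) ∧ b (k + 1) < b k) (hl : Tendsto b atTop (𝓝 0)) : StrictAnti b :=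
  strictAnti_nat_of_succ_lt (b_lt h0 hb hl)

theorem exists_k (hl : Tendsto b atTop (𝓝 0)) (x : ℝ)
    (hx : 0 < x) : ∃ k, b (k + 1) < x := by
  obtain ⟨n, hn⟩ := ((hl.comp (tendsto_add_atTop_nat 1)).eventually (Iio_mem_nhds hx)).exists
  exact ⟨n, hn⟩

theorem F_eq (h0 : b 0 = 1) (hb : ∀ k, 0 < b (k + 1) ∧ b (k + 1) < b k) (hl : Tendsto b atTop (𝓝 0))
    (hN : ∀ k, N k % 2 = 1) (k : ℕ) (x : ℝ) (h1 : b (k + 1) ≤ x) (h2 : x ≤ b k) :
    F b N x = Z (b (k + 1)) (b k - b (k + 1)) (N k) x := by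
  classical
  have hx : 0 < x := (hb k).1.trans_le h1
  have hex := exists_k hl x hx
  unfold F
  rw [dif_pos hex]
  rcases eq_or_lt_of_le h1 with h | h
  · have hf : Nat.find hex = k + 1 := by
      rw [Nat.find_eq_iff]
      refine ⟨by rw [← h]; exact b_lt h0 hb hl _, fun n hn => ?_⟩
      rw [not_lt, ← h]
      exact (b_anti h0 hb hl).antitone (by omega)
    rw [hf, ← h, Z_left, Z_right _ _ _ (b_lt h0 hb hl _) (hN _)]
  · have hf : Nat.find hex = k := by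
      rw [Nat.find_eq_iff]
      refine ⟨h, fun n hn => ?_⟩
      rw [not_lt]
      exact h2.trans ((b_anti h0 hb hl).antitone (by omega))
    rw [hf]

theorem F_zero (hb : ∀ k, 0 < b (k + 1) ∧ b (k + 1) < b k) (hl : Tendsto b atTop (𝓝 0)) : F b N 0 = 0 := by
  unfold F
  rw [dif_neg]
  rintro ⟨k, hk⟩
  linarith [(hb k).1]

theorem F_b (h0 : b 0 = 1) (hb : ∀ k, 0 < b (k + 1) ∧ b (k + 1) < b k) (hl : Tendsto b atTop (𝓝 0))
    (hN : ∀ k, N k % 2 = 1) (k : ℕ) : F b N (b k) = b k := by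
  rw [F_eq h0 hb hl hN k (b k) (b_lt h0 hb hl k).le le_rfl, Z_right _ _ _ (b_lt h0 hb hl _) (hN _)]

theorem find_k (h0 : b 0 = 1) (hb : ∀ k, 0 < b (k + 1) ∧ b (k + 1) < b k) (hl : Tendsto b atTop (𝓝 0)) (x : ℝ)
    (hx : 0 < x) (hx1 : x ≤ 1) : ∃ k, b (k + 1) < x ∧ x ≤ b k := by
  classical
  have hex := exists_k hl x hx
  refine ⟨Nat.find hex, Nat.find_spec hex, ?_⟩
  rcases Nat.eq_zero_or_pos (Nat.find hex) with h | h
  · rw [h, h0]
    exact hx1
  · have := Nat.find_min hex (m := Nat.find hex - 1) (by omega)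
    rw [Nat.sub_add_cancel h, not_lt] at this
    exact this

theorem F_mem (h0 : b 0 = 1) (hb : ∀ k, 0 < b (k + 1) ∧ b (k + 1) < b k) (hl : Tendsto b atTop (𝓝 0))
    (hN : ∀ k, N k % 2 = 1) (x : ℝ) (hx : 0 ≤ x) (hx1 : x ≤ 1) : F b N x ∈ Set.Icc (0:ℝ) 1 := by
  rcases eq_or_lt_of_le hx with h | h
  · rw [← h, F_zero hb hl]
    simp
  · obtain ⟨k, hk1, hk2⟩ := find_k h0 hb hl x h hx1
    rw [F_eq h0 hb hl hN k x hk1.le hk2]
    obtain ⟨h1, h2⟩ := Z_mem (b (k + 1)) (b k - b (k + 1)) (N k) (by linarith [b_lt h0 hb hl k]) x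
    have h3 : b k ≤ 1 := by
      rw [← h0]
      exact (b_anti h0 hb hl).antitone (Nat.zero_le _)
    exact ⟨(hb k).1.le.trans h1, by linarith⟩

theorem F_same (hw : IsMod w) (h0 : b 0 = 1) (hb : ∀ k, 0 < b (k + 1) ∧ b (k + 1) < b k) (hl : Tendsto b atTop (𝓝 0))
    (hN : ∀ k, N k % 2 = 1) (hNw : ∀ k, b k - b (k + 1) ≤ w ((b k - b (k + 1)) / N k))
    (k : ℕ) (x y : ℝ) (hx : b (k + 1) ≤ x) (hx2 : x ≤ b k) (hy : b (k + 1) ≤ y) (hy2 : y ≤ b k) :
    |F b N x - F b N y| ≤ w |x - y| := by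
  rw [F_eq h0 hb hl hN k x hx hx2, F_eq h0 hb hl hN k y hy hy2]
  exact Z_mod hw _ _ _ (hN k) (by linarith [b_lt h0 hb hl k]) (hNw k) x y

theorem F_mod (hw : IsMod w) (h0 : b 0 = 1) (hb : ∀ k, 0 < b (k + 1) ∧ b (k + 1) < b k) (hl : Tendsto b atTop (𝓝 0))
    (hN : ∀ k, N k % 2 = 1) (hNw : ∀ k, b k - b (k + 1) ≤ w ((b k - b (k + 1)) / N k))
    (x y : ℝ) (hx : 0 ≤ x) (hxy : x < y) (hy : y ≤ 1) :
    |F b N x - F b N y| ≤ (2 + 1 / w 1) * w (y - x) := by
  obtain ⟨j, hj1, hj2⟩ := find_k h0 hb hl y (hx.trans_lt hxy) hy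
  have hw0 : 0 ≤ w (y - x) := w_nonneg hw _ (by linarith)
  have hwl := w_lin hw (y - x) (by linarith) (by linarith)
  have h1w : 0 ≤ 1 / w 1 := by
    have := hw.pos
    positivity
  rcases lt_or_ge x (b (j + 1)) with hxj | hxj
  · -- different intervals
    have hq := F_b h0 hb hl hN (j + 1)
    have hB : |b (j + 1) - F b N y| ≤ w (y - x) := by
      have h := F_same hw h0 hb hl hN hNw j (b (j + 1)) y le_rfl (b_lt h0 hb hl j).le hj1.le hj2
      rw [hq, abs_sub_comm (b (j + 1)) y, abs_of_pos (by linarith : 0 < y - b (j + 1))] at h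
      exact h.trans (w_mono hw _ _ (by linarith) (by linarith))
    have hA : ∃ p, x ≤ p ∧ p ≤ b (j + 1) ∧ |F b N x - p| ≤ w (y - x) := by
      rcases eq_or_lt_of_le hx with h | h
      · refine ⟨0, by rw [← h], (hb j).1.le, ?_⟩
        rw [← h, F_zero hb hl, sub_zero, abs_zero]
        rw [← h, sub_zero] at hw0
        simpa using hw0
      · obtain ⟨i, hi1, hi2⟩ := find_k h0 hb hl x h (by linarith)
        have hij : j + 1 ≤ i := by
          by_contra hcon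
          have : b (j + 1) ≤ b (i + 1) := (b_anti h0 hb hl).antitone (by omega)
          linarith
        refine ⟨b i, hi2, (b_anti h0 hb hl).antitone hij, ?_⟩
        have h' := F_same hw h0 hb hl hN hNw i x (b i) hi1.le hi2 (b_lt h0 hb hl i).le le_rfl
        rw [F_b h0 hb hl hN i, abs_sub_comm x (b i), abs_of_nonneg (by linarith : 0 ≤ b i - x)] at h'
        have h4 : b i ≤ b (j + 1) := (b_anti h0 hb hl).antitone hij
        exact h'.trans (w_mono hw _ _ (by linarith) (by linarith))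
    obtain ⟨p, hp1, hp2, hp3⟩ := hA
    have e : F b N x - F b N y = (F b N x - p) + (p - b (j + 1)) + (b (j + 1) - F b N y) := by ring
    have h5 : |p - b (j + 1)| ≤ y - x := by
      rw [abs_sub_comm, abs_of_nonneg (by linarith)]
      linarith
    rw [e]
    calc |(F b N x - p) + (p - b (j + 1)) + (b (j + 1) - F b N y)|
        ≤ |F b N x - p| + |p - b (j + 1)| + |b (j + 1) - F b N y| := abs_add_three _ _ _
      _ ≤ w (y - x) + (y - x) + w (y - x) := by linarith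
      _ ≤ (2 + 1 / w 1) * w (y - x) := by linarith
  · have h := F_same hw h0 hb hl hN hNw j x y hxj (hxy.le.trans hj2) hj1.le hj2
    rw [abs_sub_comm x y, abs_of_pos (by linarith : 0 < y - x)] at h
    refine h.trans ?_
    have : 0 ≤ 1 / w 1 * w (y - x) := mul_nonneg h1w hw0
    linarith

end

end ConLeaf2

open ConLeaf2 in
theorem con2 : S_CON2 := by
  intro w hw b N h0 hb hl hN hNw
  refine ⟨fun x => ⟨F b N x, F_mem h0 hb hl hN x x.2.1 x.2.2⟩, ?_, ?_⟩
  · intro x y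
    change |F b N x - F b N y| ≤ (2 + 1 / w 1) * w |(x : ℝ) - (y : ℝ)|
    rcases lt_trichotomy (x : ℝ) (y : ℝ) with h | h | h
    · rw [abs_sub_comm (x : ℝ) (y : ℝ), abs_of_pos (sub_pos.2 h)]
      exact F_mod hw h0 hb hl hN hNw x y x.2.1 h y.2.2
    · rw [h, sub_self, sub_self, abs_zero, hw.zero, mul_zero]
    · rw [abs_sub_comm (F b N x), abs_of_pos (sub_pos.2 h)]
      exact F_mod hw h0 hb hl hN hNw y x y.2.1 h x.2.2
  · intro k x h1 h2
    exact F_eq h0 hb hl hN k x h1 h2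

end Pool.Agent.K9h65.MD
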