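import Pool.Agent.K9h65.MD.Stm

/-!
# Assembly
-/

set_option autoImplicit false

namespace Pool.Agent.K9h65.MD

open Filter Topology

theorem IsMod.nonneg {w : ℝ → ℝ} (hw : IsMod w) {t : ℝ} (ht : 0 ≤ t) : 0 ≤ w t := by
  have h := hw.mono (Set.mem_Ici.2 le_rfl) (Set.mem_Ici.2 ht) ht
  rwa [hw.zero] at h

theorem IsMod.slope {w : ℝ → ℝ} (hw : IsMod w) {t : ℝ} (h0 : 0 ≤ t) (h1 : t ≤ 1) :
    t * w 1 ≤ w t := by
  have h := hw.conc.2 (show (1 : ℝ) ∈ Set.Ici 0 from Set.mem_Ici.2 zero_le_one)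
    (show (0 : ℝ) ∈ Set.Ici 0 from Set.mem_Ici.2 le_rfl) h0 (by linarith : 0 ≤ 1 - t) (by ring)
  simp only [smul_eq_mul, mul_one, mul_zero, add_zero, hw.zero] at h
  linarith

theorem IsMod.smul {w : ℝ → ℝ} (hw : IsMod w) {K : ℝ} (hK : 0 < K) :
    IsMod (fun t => K * w t) where
  conc := by
    have := hw.conc.smul hK.le
    exact this
  mono := fun x hx y hy hxy => mul_le_mul_of_nonneg_left (hw.mono hx hy hxy) hK.le
  zero := by simp [hw.zero]
  lim := by
    have := hw.lim.const_mul K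
    simpa using this
  pos := mul_pos hK hw.pos

theorem HasMod.mono {w : ℝ → ℝ} (hw : IsMod w) {K K' : ℝ} (h : K ≤ K') {φ : I → I}
    (hφ : HasMod w K φ) : HasMod w K' φ := fun x y =>
  (hφ x y).trans (mul_le_mul_of_nonneg_right h (hw.nonneg (abs_nonneg _)))

theorem rate_id (hsym : S_SYM) {ε : ℝ} (hε : 0 < ε) : 0 ≤ sepRate id ε := by
  have h := hsym id 1 ε Set.univ (fun _ => id) le_rfl hε Set.univ_nonempty
    (fun i y _ => ⟨Set.mem_univ _, rfl⟩)
    (fun i i' hii => absurd (Subsingleton.elim i i') hii)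
  simpa using h

theorem mdim_id (hsym : S_SYM) : 0 ≤ upperMdim id := by
  refine le_limsup_of_frequently_le ?_
  refine Eventually.frequently ?_
  filter_upwards [self_mem_nhdsWithin] with ε hε
  exact EReal.div_nonneg (rate_id hsym hε) (by exact_mod_cast abs_nonneg _)

theorem attained (hub : S_UB) (hsym : S_SYM) (hcon : S_CON) (hbr : S_BR) (hseq : S_SEQ)
    (hhol : S_HOL) (w : ℝ → ℝ) (hw : IsMod w) :
    ∃ (φ : I → I) (K : ℝ), 0 < K ∧ HasMod w K φ ∧ upperMdim φ = D w := by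
  obtain ⟨hD0, -, -⟩ := hhol w hw
  rcases hD0.eq_or_lt with h0 | h0
  · have hK : 0 < 1 / w 1 := one_div_pos.2 hw.pos
    have hm : HasMod w (1 / w 1) id := by
      intro x y
      have h1 : |(x : ℝ) - (y : ℝ)| ≤ 1 := by
        rw [abs_le]
        constructor <;> linarith [x.2.1, x.2.2, y.2.1, y.2.2]
      have h2 := hw.slope (abs_nonneg ((x : ℝ) - (y : ℝ))) h1
      rw [div_mul_eq_mul_div, one_mul, le_div_iff₀ hw.pos]
      exact h2
    refine ⟨id, 1 / w 1, hK, hm, le_antisymm (hub w hw id _ hK hm) ?_⟩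
    rw [← h0]
    exact mdim_id hsym
  · obtain ⟨K, b, N, t, hK, hb0, hb, hN, hlen, ht, htl, hlim⟩ := hseq w hw h0
    have hK0 : 0 < K := by linarith
    have hw' := hw.smul hK0
    obtain ⟨φ, hφ, hform⟩ := hcon (fun t => K * w t) hw' b N hb0 hb hN hlen
    have hbpos : ∀ k, 0 < b k := by
      intro k
      rcases k with _ | k
      · rw [hb0]; norm_num
      · exact (hb k).1
    have hb1 : ∀ k, b k ≤ 1 := by
      intro k
      induction k with
      | zero => exact hb0.le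
      | succ k ih => linarith [(hb k).2, hbpos k]
    have hK' : 0 < K * (2 + 1 / (K * w 1)) := by
      have := hw.pos
      positivity
    have hm : HasMod w (K * (2 + 1 / (K * w 1))) φ := by
      intro x y
      have h1 := hφ x y
      refine h1.trans (le_of_eq ?_)
      ring
    refine ⟨φ, _, hK', hm, le_antisymm (hub w hw φ _ hK' hm) (hlim.trans ?_)⟩
    have hstep : ∀ k, ((Real.log (((N k + 1) / 2 : ℕ) : ℝ) / |Real.log (t k)| : ℝ) : EReal) ≤
        sepRate φ (t k) / ((|Real.log (t k)| : ℝ) : EReal) := by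
      intro k
      have h1 := hbr φ (b (k + 1)) (b k) (N k) (t k) (hb k).1.le (by linarith [(hb k).2, hbpos k])
        (hb1 k) (hN k) (fun x hx1 hx2 => hform k x hx1 hx2) (ht k).1 (ht k).2
      rw [EReal.coe_div]
      exact EReal.div_le_div_right_of_nonneg (by exact_mod_cast abs_nonneg _) h1
    have htw : Tendsto t atTop (𝓝[>] 0) :=
      tendsto_nhdsWithin_iff.2 ⟨htl, Eventually.of_forall fun k => (ht k).1⟩
    calc limsup (fun k : ℕ => ((Real.log (((N k + 1) / 2 : ℕ) : ℝ) / |Real.log (t k)| : ℝ) : EReal))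
          atTop
        ≤ limsup (fun k : ℕ => sepRate φ (t k) / ((|Real.log (t k)| : ℝ) : EReal)) atTop :=
          limsup_le_limsup (Eventually.of_forall hstep)
      _ = limsup (fun ε : ℝ => sepRate φ ε / ((|Real.log ε| : ℝ) : EReal)) (map t atTop) := rfl
      _ ≤ upperMdim φ := limsup_le_limsup_of_le htw

/-- the assembly -/
theorem fin (hub : S_UB) (hsym : S_SYM) (hcon : S_CON) (hbr : S_BR) (hseq : S_SEQ)
    (hhol : S_HOL) (w : ℝ → ℝ) (hw : IsMod w) :
    (∀ (φ : I → I) (K : ℝ), HasMod w K φ → upperMdim φ ≤ D w) ∧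
    (∃ (φ : I → I) (K : ℝ), HasMod w K φ ∧ upperMdim φ = D w) ∧
    ((∀ (φ : I → I) (K : ℝ), HasMod w K φ → upperMdim φ ≠ 1) ↔
      ∃ α : ℝ, 0 < α ∧ ∃ C : ℝ, ∀ x : ℝ, 0 ≤ x → x ≤ 1 → w x ≤ C * x ^ α) := by
  obtain ⟨-, hD1, hD⟩ := hhol w hw
  have h1 : ∀ (φ : I → I) (K : ℝ), HasMod w K φ → upperMdim φ ≤ D w := fun φ K hφ =>
    hub w hw φ (|K| + 1) (by positivity) (hφ.mono hw (by linarith [le_abs_self K]))
  obtain ⟨φ₀, K₀, -, hφ₀, hφ₁⟩ := attained hub hsym hcon hbr hseq hhol w hw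
  refine ⟨h1, ⟨φ₀, K₀, hφ₀, hφ₁⟩, ?_, ?_⟩
  · intro h
    rw [← hD]
    refine lt_of_le_of_ne hD1 fun h2 => h φ₀ K₀ hφ₀ (hφ₁.trans h2)
  · intro h φ K hφ
    exact ((h1 φ K hφ).trans_lt (hD.2 h)).ne

end Pool.Agent.K9h65.MD
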