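import Pool.Agent.K9h65.MD.Asm2

/-! Assembly of the second version. -/

set_option autoImplicit false

namespace Pool.Agent.K9h65.MD

open Filter Topology

theorem HasMod.mono' {w : ℝ → ℝ} (hw : IsMod w) {K K' : ℝ} (h : K ≤ K') {φ : I → I}
    (hφ : HasMod w K φ) : HasMod w K' φ := fun x y =>
  (hφ x y).trans (mul_le_mul_of_nonneg_right h (hw.nonneg' (abs_nonneg _)))

theorem tendsto_absLog : Tendsto (fun ε : ℝ => |Real.log ε|) (𝓝[>] 0) atTop :=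
  tendsto_abs_atBot_atTop.comp Real.tendsto_log_nhdsGT_zero

theorem tendsto_r1 (C : ℝ) : Tendsto (fun ε : ℝ => C / |Real.log ε|) (𝓝[>] 0) (𝓝 0) :=
  Tendsto.const_div_atTop tendsto_absLog _

theorem tendsto_r2 (C : ℝ) : Tendsto (fun ε : ℝ => (2 * Real.log (1 + |Real.log ε|) + C) /
    |Real.log ε|) (𝓝[>] 0) (𝓝 0) := by
  have h1 : Tendsto (fun x : ℝ => Real.log x ^ 1 / (1 * x + (-1))) atTop (𝓝 0) :=
    Real.tendsto_pow_log_div_mul_add_atTop 1 (-1) 1 one_ne_zero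
  have h2 : Tendsto (fun ε : ℝ => 1 + |Real.log ε|) (𝓝[>] 0) atTop :=
    tendsto_atTop_add_const_left _ _ tendsto_absLog
  have h3 := h1.comp h2
  have h4 := (h3.const_mul 2).add (tendsto_r1 C)
  simp only [mul_zero, add_zero] at h4
  refine h4.congr fun ε => ?_
  simp only [Function.comp]
  rw [pow_one, add_div, mul_div_assoc]
  congr 3
  ring

theorem mem01 : Set.Ioo (0 : ℝ) 1 ∈ 𝓝[>] (0 : ℝ) := Ioo_mem_nhdsGT one_pos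

theorem upper_of (hlu : S_LU) (w : ℝ → ℝ) (φ : I → I) (C : ℝ)
    (h : ∀ ε : ℝ, 0 < ε → ε < 1 → sepRate φ ε ≤ ((Real.log (w ε / ε) + C : ℝ) : EReal)) :
    upperMdim φ ≤ D w ∧ lowerMdim φ ≤ DL w := by
  refine hlu (fun ε => Real.log (w ε / ε) / |Real.log ε|) (fun ε => C / |Real.log ε|) _
    (tendsto_r1 C) ?_
  filter_upwards [mem01] with ε hε
  rw [← add_div, EReal.coe_div]
  exact EReal.div_le_div_right_of_nonneg (by exact_mod_cast abs_nonneg _) (h ε hε.1 hε.2)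

theorem lower_of (hll : S_LL) (w : ℝ → ℝ) (φ : I → I) (C : ℝ)
    (h : ∀ ε : ℝ, 0 < ε → ε < 1 →
      ((Real.log (w ε / ε) - 2 * Real.log (1 + |Real.log ε|) - C : ℝ) : EReal) ≤ sepRate φ ε) :
    D w ≤ upperMdim φ ∧ DL w ≤ lowerMdim φ := by
  refine hll (fun ε => Real.log (w ε / ε) / |Real.log ε|)
    (fun ε => (2 * Real.log (1 + |Real.log ε|) + C) / |Real.log ε|) _ (tendsto_r2 C) ?_
  filter_upwards [mem01] with ε hε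
  rw [← sub_div, EReal.coe_div]
  refine EReal.div_le_div_right_of_nonneg (by exact_mod_cast abs_nonneg _) (le_trans ?_ (h ε hε.1 hε.2))
  apply EReal.coe_le_coe_iff.2
  linarith

/-- the assembly -/
theorem fin2 (hcon : S_CON2) (hbr : S_BR) (hseq : S_SEQ2) (hlu : S_LU) (hll : S_LL)
    (hhol : S_HOL) (hholl : S_HOLL) (w : ℝ → ℝ) (hw : IsMod w) :
    (∀ (φ : I → I) (K : ℝ), HasMod w K φ →
      (∃ C : ℝ, ∀ ε : ℝ, 0 < ε → ε < 1 → sepRate φ ε ≤ ((Real.log (w ε / ε) + C : ℝ) : EReal)) ∧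
      upperMdim φ ≤ D w ∧ lowerMdim φ ≤ DL w) ∧
    (∃ (φ : I → I) (K : ℝ), HasMod w K φ ∧
      (∃ C : ℝ, ∀ ε : ℝ, 0 < ε → ε < 1 →
        ((Real.log (w ε / ε) - 2 * Real.log (1 + |Real.log ε|) - C : ℝ) : EReal) ≤ sepRate φ ε) ∧
      upperMdim φ = D w ∧ lowerMdim φ = DL w) ∧
    ((∀ (φ : I → I) (K : ℝ), HasMod w K φ → upperMdim φ ≠ 1) ↔
      ∃ α : ℝ, 0 < α ∧ ∃ C : ℝ, ∀ x : ℝ, 0 ≤ x → x ≤ 1 → w x ≤ C * x ^ α) ∧
    ((∀ (φ : I → I) (K : ℝ), HasMod w K φ → lowerMdim φ ≠ 1) ↔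
      ∃ α : ℝ, 0 < α ∧ ∃ᶠ ε : ℝ in 𝓝[>] 0, w ε ≤ ε ^ α) := by
  obtain ⟨-, hD1, hD⟩ := hhol w hw
  obtain ⟨hE1, hE⟩ := hholl w hw
  have h1 : ∀ (φ : I → I) (K : ℝ), HasMod w K φ →
      (∃ C : ℝ, ∀ ε : ℝ, 0 < ε → ε < 1 → sepRate φ ε ≤ ((Real.log (w ε / ε) + C : ℝ) : EReal)) ∧
      upperMdim φ ≤ D w ∧ lowerMdim φ ≤ DL w := by
    intro φ K hφ
    obtain ⟨C, hC⟩ := up w hw φ (|K| + 1) (by positivity)
      (hφ.mono' hw (by linarith [le_abs_self K]))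
    exact ⟨⟨C, hC⟩, upper_of hlu w φ C hC⟩
  obtain ⟨φ₀, K₀, -, hφ₀, C₀, hC₀⟩ := asm hcon hbr hseq w hw
  have h2 := h1 φ₀ K₀ hφ₀
  have h3 := lower_of hll w φ₀ C₀ hC₀
  have h4 : upperMdim φ₀ = D w := le_antisymm h2.2.1 h3.1
  have h5 : lowerMdim φ₀ = DL w := le_antisymm h2.2.2 h3.2
  refine ⟨h1, ⟨φ₀, K₀, hφ₀, ⟨C₀, hC₀⟩, h4, h5⟩, ⟨?_, ?_⟩, ⟨?_, ?_⟩⟩
  · intro h
    rw [← hD]
    exact lt_of_le_of_ne hD1 fun h6 => h φ₀ K₀ hφ₀ (h4.trans h6)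
  · intro h φ K hφ
    exact ((h1 φ K hφ).2.1.trans_lt (hD.2 h)).ne
  · intro h
    rw [← hE]
    exact lt_of_le_of_ne hE1 fun h6 => h φ₀ K₀ hφ₀ (h5.trans h6)
  · intro h φ K hφ
    exact ((h1 φ K hφ).2.2.trans_lt (hE.2 h)).ne

end Pool.Agent.K9h65.MD
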