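import Pool.Agent.K9h65.MD.Stm

set_option autoImplicit false

namespace Pool.Agent.K9h65.MD

open Filter Topology

namespace HolAux

lemma w_ge {w : ℝ → ℝ} (hw : IsMod w) {x : ℝ} (h0 : 0 ≤ x) (h1 : x ≤ 1) : x * w 1 ≤ w x := by
  have h := hw.conc.2 (x := 1) (y := 0) (by simp) (by simp) h0 (by linarith : (0 : ℝ) ≤ 1 - x)
    (by ring)
  simp only [smul_eq_mul, mul_one, mul_zero, add_zero, hw.zero] at h
  exact h

lemma w_pos {w : ℝ → ℝ} (hw : IsMod w) {x : ℝ} (h0 : 0 < x) (h1 : x ≤ 1) : 0 < w x :=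
  lt_of_lt_of_le (mul_pos h0 hw.pos) (w_ge hw h0.le h1)

lemma ev : ∀ᶠ x : ℝ in 𝓝[>] 0, 0 < x ∧ x < 1 := by
  have h := Ioo_mem_nhdsGT (show (0 : ℝ) < 1 by norm_num)
  filter_upwards [h] with x hx
  exact ⟨hx.1, hx.2⟩

lemma abs_log {x : ℝ} (h0 : 0 < x) (h1 : x < 1) : |Real.log x| = -Real.log x ∧ 0 < -Real.log x := by
  have h := Real.log_neg h0 h1
  exact ⟨abs_of_neg h, by linarith⟩

lemma tend0 (c : ℝ) : Tendsto (fun x : ℝ => c / |Real.log x|) (𝓝[>] 0) (𝓝 0) := by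
  have h : Tendsto (fun x : ℝ => |Real.log x|) (𝓝[>] 0) atTop :=
    tendsto_abs_atBot_atTop.comp Real.tendsto_log_nhdsGT_zero
  exact h.const_div_atTop c

lemma F_le {x y c : ℝ} (h0 : 0 < x) (h1 : x < 1) (hy : 0 < y) (h : Real.log y ≤ c) :
    Real.log (y / x) / |Real.log x| ≤ c / |Real.log x| + 1 := by
  obtain ⟨h2, h3⟩ := abs_log h0 h1
  rw [h2, Real.log_div hy.ne' h0.ne', div_add_one h3.ne']
  exact div_le_div_of_nonneg_right (by linarith) h3.le

end HolAux

open HolAux in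
theorem hol : S_HOL := by
  intro w hw
  refine ⟨?_, ?_, ?_, ?_⟩
  · have h1 : limsup (fun ε : ℝ => ((Real.log (w 1) / |Real.log ε| : ℝ) : EReal)) (𝓝[>] 0) = 0 := by
      have := (continuous_coe_real_ereal.tendsto 0).comp (tend0 (Real.log (w 1)))
      exact this.limsup_eq
    rw [← h1]
    refine limsup_le_limsup ?_
    filter_upwards [ev] with ε hε
    rw [EReal.coe_le_coe_iff]
    obtain ⟨h2, h3⟩ := abs_log hε.1 hε.2
    rw [h2]
    refine div_le_div_of_nonneg_right (Real.log_le_log hw.pos ?_) h3.le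
    rw [le_div_iff₀ hε.1, mul_comm]
    exact w_ge hw hε.1.le hε.2.le
  · refine limsup_le_of_le ?_ ?_
    · isBoundedDefault
    · have h1 : ∀ᶠ ε in 𝓝[>] (0 : ℝ), w ε < 1 := hw.lim.eventually (gt_mem_nhds (by norm_num))
      filter_upwards [ev, h1] with ε hε h2
      have h3 := F_le hε.1 hε.2 (w_pos hw hε.1 hε.2.le) (c := 0)
        (Real.log_nonpos (w_pos hw hε.1 hε.2.le).le h2.le)
      rw [zero_div, zero_add] at h3
      exact_mod_cast h3
  · intro h
    obtain ⟨r, h1, h2⟩ := EReal.lt_iff_exists_real_btwn.1 h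
    have hr : r < 1 := by exact_mod_cast h2
    have h3 := eventually_lt_of_limsup_lt h1
    have h4 : ∀ᶠ ε in 𝓝[>] (0 : ℝ), w ε ≤ ε ^ (1 - r) := by
      filter_upwards [ev, h3] with ε hε h5
      have h5' : Real.log (w ε / ε) / |Real.log ε| < r := by exact_mod_cast h5
      obtain ⟨h6, h7⟩ := abs_log hε.1 hε.2
      have hp := w_pos hw hε.1 hε.2.le
      rw [h6, Real.log_div hp.ne' hε.1.ne', div_lt_iff₀ h7] at h5'
      rw [Real.rpow_def_of_pos hε.1, ← Real.log_le_iff_le_exp hp]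
      linarith
    obtain ⟨ε₀, hε₀, h5⟩ := mem_nhdsGT_iff_exists_Ioo_subset.1 h4
    have hε₀' : 0 < ε₀ := hε₀
    refine ⟨1 - r, by linarith, 1 + w 1 / ε₀ ^ (1 - r), fun x hx0 hx1 => ?_⟩
    have hq : 0 < ε₀ ^ (1 - r) := Real.rpow_pos_of_pos hε₀' _
    have hc : 0 ≤ w 1 / ε₀ ^ (1 - r) := div_nonneg hw.pos.le hq.le
    rcases hx0.eq_or_lt with h6 | h6
    · rw [← h6, hw.zero, Real.zero_rpow (by linarith)]
      simp
    · have hxp : 0 < x ^ (1 - r) := Real.rpow_pos_of_pos h6 _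
      rcases lt_or_ge x ε₀ with h7 | h7
      · have h8 : w x ≤ x ^ (1 - r) := h5 ⟨h6, h7⟩
        nlinarith
      · have h8 : w x ≤ w 1 := hw.mono hx0 (by simp) hx1
        have h9 : ε₀ ^ (1 - r) ≤ x ^ (1 - r) := Real.rpow_le_rpow hε₀'.le h7 (by linarith)
        have h10 : w 1 ≤ w 1 / ε₀ ^ (1 - r) * x ^ (1 - r) := by
          rw [div_mul_eq_mul_div, le_div_iff₀ hq]
          exact mul_le_mul_of_nonneg_left h9 hw.pos.le
        nlinarith
  · rintro ⟨α, hα, C, hC⟩
    have hC0 : 0 < C := by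
      have := hC 1 (by norm_num) le_rfl
      rw [Real.one_rpow, mul_one] at this
      linarith [hw.pos]
    have h1 : limsup (fun ε : ℝ => ((Real.log C / |Real.log ε| + (1 - α) : ℝ) : EReal)) (𝓝[>] 0) =
        ((1 - α : ℝ) : EReal) := by
      have h2 : Tendsto (fun ε : ℝ => Real.log C / |Real.log ε| + (1 - α)) (𝓝[>] 0)
          (𝓝 (0 + (1 - α))) := (tend0 (Real.log C)).add_const _
      rw [zero_add] at h2
      exact ((continuous_coe_real_ereal.tendsto (1 - α)).comp h2).limsup_eq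
    have h2 : D w ≤ ((1 - α : ℝ) : EReal) := by
      rw [← h1]
      refine limsup_le_limsup ?_
      filter_upwards [ev] with ε hε
      rw [EReal.coe_le_coe_iff]
      have hp := w_pos hw hε.1 hε.2.le
      have h3 := hC ε hε.1.le hε.2.le
      have h4 : Real.log (w ε) ≤ Real.log C + α * Real.log ε := by
        rw [← Real.log_rpow hε.1, ← Real.log_mul hC0.ne' (Real.rpow_pos_of_pos hε.1 _).ne']
        exact Real.log_le_log hp h3
      refine (F_le hε.1 hε.2 hp h4).trans ?_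
      obtain ⟨h6, h7⟩ := abs_log hε.1 hε.2
      rw [h6]
      have h8 : Real.log ε ≠ 0 := by linarith
      apply le_of_eq
      field_simp
      ring
    refine lt_of_le_of_lt h2 ?_
    have : (1 - α : ℝ) < 1 := by linarith
    exact_mod_cast this

end Pool.Agent.K9h65.MD
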