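import Pool.Agent.K9h65.MD.Stm2
import Pool.Agent.K9h65.MD.Hol

set_option autoImplicit false

/-! Leaf HOLL (helper17), with the lemmas of Hol.lean (helper95). -/

namespace Pool.Agent.K9h65.MD

open Filter Topology

open HolAux in
theorem holl : S_HOLL := by
  intro w hw
  refine ⟨?_, ?_, ?_⟩
  · have h1 : DL w ≤ D w := liminf_le_limsup
    exact h1.trans (hol w hw).2.1
  · intro h
    obtain ⟨r, h1, h2⟩ := EReal.lt_iff_exists_real_btwn.1 h
    have hr : r < 1 := by exact_mod_cast h2
    have h3 := frequently_lt_of_liminf_lt (by isBoundedDefault) h1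
    refine ⟨1 - r, by linarith, (h3.and_eventually ev).mono ?_⟩
    rintro ε ⟨h5, hε⟩
    have h5' : Real.log (w ε / ε) / |Real.log ε| < r := by exact_mod_cast h5
    obtain ⟨h6, h7⟩ := abs_log hε.1 hε.2
    have hp := w_pos hw hε.1 hε.2.le
    rw [h6, Real.log_div hp.ne' hε.1.ne', div_lt_iff₀ h7] at h5'
    rw [Real.rpow_def_of_pos hε.1, ← Real.log_le_iff_le_exp hp]
    linarith
  · rintro ⟨α, hα, h⟩
    have h1 : ∃ᶠ ε : ℝ in 𝓝[>] 0,
        ((Real.log (w ε / ε) / |Real.log ε| : ℝ) : EReal) ≤ ((1 - α : ℝ) : EReal) := by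
      refine (h.and_eventually ev).mono ?_
      rintro ε ⟨h3, hε⟩
      rw [EReal.coe_le_coe_iff]
      have hp := w_pos hw hε.1 hε.2.le
      have h4 : Real.log (w ε) ≤ α * Real.log ε := by
        rw [← Real.log_rpow hε.1]
        exact Real.log_le_log hp h3
      refine (F_le hε.1 hε.2 hp h4).trans ?_
      obtain ⟨h6, h7⟩ := abs_log hε.1 hε.2
      rw [h6]
      have h8 : Real.log ε ≠ 0 := by linarith
      apply le_of_eq
      field_simp
      ring
    have h2 : DL w ≤ ((1 - α : ℝ) : EReal) := liminf_le_of_frequently_le h1 (by isBoundedDefault)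
    refine lt_of_le_of_lt h2 ?_
    have : (1 - α : ℝ) < 1 := by linarith
    exact_mod_cast this

end Pool.Agent.K9h65.MD
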