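import Pool.Agent.K9h65.MD.Stm2

/-!
# Leaves LU and LL
-/

set_option autoImplicit false

namespace Pool.Agent.K9h65.MD

open Filter Topology

theorem lu : S_LU := by
  intro a r s hr hs
  constructor
  · rw [← EReal.le_of_forall_lt_iff_le]
    intro z hz
    obtain ⟨z', h1, h2⟩ := EReal.lt_iff_exists_real_btwn.1 hz
    have h2' : z' < z := EReal.coe_lt_coe_iff.1 h2
    have h3 : ∀ᶠ ε in 𝓝[>] (0 : ℝ), ((a ε : ℝ) : EReal) < z' := eventually_lt_of_limsup_lt h1
    have h4 : ∀ᶠ ε in 𝓝[>] (0 : ℝ), r ε < z - z' := hr.eventually_lt_const (sub_pos.2 h2')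
    apply limsup_le_of_le
    · isBoundedDefault
    · filter_upwards [hs, h3, h4] with ε e1 e3 e4
      have e3' : a ε < z' := EReal.coe_lt_coe_iff.1 e3
      refine e1.trans (EReal.coe_le_coe_iff.2 ?_)
      linarith
  · rw [← EReal.le_of_forall_lt_iff_le]
    intro z hz
    obtain ⟨z', h1, h2⟩ := EReal.lt_iff_exists_real_btwn.1 hz
    have h2' : z' < z := EReal.coe_lt_coe_iff.1 h2
    have h3 : ∃ᶠ ε in 𝓝[>] (0 : ℝ), ((a ε : ℝ) : EReal) < z' := frequently_lt_of_liminf_lt (by isBoundedDefault) h1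
    have h4 : ∀ᶠ ε in 𝓝[>] (0 : ℝ), r ε < z - z' := hr.eventually_lt_const (sub_pos.2 h2')
    apply liminf_le_of_frequently_le
    · refine (h3.and_eventually (hs.and h4)).mono ?_
      rintro ε ⟨e3, e1, e4⟩
      have e3' : a ε < z' := EReal.coe_lt_coe_iff.1 e3
      refine e1.trans (EReal.coe_le_coe_iff.2 ?_)
      linarith
    · isBoundedDefault

theorem ll : S_LL := by
  intro a r s hr hs
  constructor
  · rw [← EReal.ge_of_forall_gt_iff_ge]
    intro z hz
    obtain ⟨z', h1, h2⟩ := EReal.lt_iff_exists_real_btwn.1 hz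
    have h1' : z < z' := EReal.coe_lt_coe_iff.1 h1
    have h3 : ∃ᶠ ε in 𝓝[>] (0 : ℝ), (z' : EReal) < ((a ε : ℝ) : EReal) := frequently_lt_of_lt_limsup (by isBoundedDefault) h2
    have h4 : ∀ᶠ ε in 𝓝[>] (0 : ℝ), r ε < z' - z := hr.eventually_lt_const (sub_pos.2 h1')
    apply le_limsup_of_frequently_le
    · refine (h3.and_eventually (hs.and h4)).mono ?_
      rintro ε ⟨e3, e1, e4⟩
      have e3' : z' < a ε := EReal.coe_lt_coe_iff.1 e3
      refine le_trans (EReal.coe_le_coe_iff.2 ?_) e1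
      linarith
    · isBoundedDefault
  · rw [← EReal.ge_of_forall_gt_iff_ge]
    intro z hz
    obtain ⟨z', h1, h2⟩ := EReal.lt_iff_exists_real_btwn.1 hz
    have h1' : z < z' := EReal.coe_lt_coe_iff.1 h1
    have h3 : ∀ᶠ ε in 𝓝[>] (0 : ℝ), (z' : EReal) < ((a ε : ℝ) : EReal) := eventually_lt_of_lt_liminf h2
    have h4 : ∀ᶠ ε in 𝓝[>] (0 : ℝ), r ε < z' - z := hr.eventually_lt_const (sub_pos.2 h1')
    apply le_liminf_of_le
    · isBoundedDefault
    · filter_upwards [hs, h3, h4] with ε e1 e3 e4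
      have e3' : z' < a ε := EReal.coe_lt_coe_iff.1 e3
      refine le_trans (EReal.coe_le_coe_iff.2 ?_) e1
      linarith

end Pool.Agent.K9h65.MD
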