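import Pool.Agent.K9h65.MD.Stm

/-!
The leaf SEQ: the choice of the scales.
-/

set_option autoImplicit false

namespace Pool.Agent.K9h65.MD

open Filter Topology

namespace SeqAux

theorem step (w : ℝ → ℝ) (hw : IsMod w) (r : ℝ) (hr : 0 < r) (c : EReal) (hc : (r : EReal) ≤ c)
    (hcD : c < D w) (k : ℕ) (β : ℝ) (hβ : 0 < β) :
    ∃ e : ℝ, 0 < e ∧ e < 1 ∧ 0 < w e ∧ w e ≤ β / 2 ∧ 8 * e ≤ w e ∧ (k : ℝ) ≤ |Real.log e| ∧
      c < ((Real.log (w e / e) / |Real.log e| : ℝ) : EReal) := by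
  have h1 : ∃ᶠ e in 𝓝[>] (0 : ℝ), c < ((Real.log (w e / e) / |Real.log e| : ℝ) : EReal) :=
    frequently_lt_of_lt_limsup (by isBoundedDefault) hcD
  have hlog : Tendsto (fun e : ℝ => |Real.log e|) (𝓝[>] 0) atTop :=
    tendsto_abs_atBot_atTop.comp Real.tendsto_log_nhdsGT_zero
  have h2 : ∀ᶠ e in 𝓝[>] (0 : ℝ), 0 < e := eventually_mem_nhdsWithin
  have h3 : ∀ᶠ e in 𝓝[>] (0 : ℝ), e < 1 := nhdsWithin_le_nhds (Iio_mem_nhds one_pos)
  have h4 : ∀ᶠ e in 𝓝[>] (0 : ℝ), w e < β / 2 :=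
    hw.lim.eventually (Iio_mem_nhds (by positivity : (0 : ℝ) < β / 2))
  have h5 : ∀ᶠ e in 𝓝[>] (0 : ℝ), (k : ℝ) ≤ |Real.log e| := hlog.eventually_ge_atTop _
  have h6 : ∀ᶠ e in 𝓝[>] (0 : ℝ), Real.log 8 / r ≤ |Real.log e| := hlog.eventually_ge_atTop _
  have h7 : ∀ᶠ e in 𝓝[>] (0 : ℝ), (1 : ℝ) ≤ |Real.log e| := hlog.eventually_ge_atTop _
  obtain ⟨e, he, he2, he3, he4, he5, he6, he7⟩ :=
    (h1.and_eventually (h2.and (h3.and (h4.and (h5.and (h6.and h7)))))).exists
  have hL : (0 : ℝ) < |Real.log e| := by linarith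
  have h8 : r < Real.log (w e / e) / |Real.log e| := by
    have := lt_of_le_of_lt hc he
    exact_mod_cast this
  have h9 : Real.log 8 < Real.log (w e / e) := by
    rw [lt_div_iff₀ hL] at h8
    rw [div_le_iff₀ hr] at he6
    linarith
  have hw0 : 0 ≤ w e := by
    have := hw.mono (Set.mem_Ici.2 le_rfl) (Set.mem_Ici.2 he2.le) he2.le
    rw [hw.zero] at this
    exact this
  have h10 : 0 < w e := by
    rcases hw0.lt_or_eq with h | h
    · exact h
    · rw [← h, zero_div, Real.log_zero] at h9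
      have : (0 : ℝ) < Real.log 8 := Real.log_pos (by norm_num)
      linarith
  have h11 : 8 < w e / e := (Real.log_lt_log_iff (by norm_num) (by positivity)).1 h9
  rw [lt_div_iff₀ he2] at h11
  exact ⟨e, he2, he3, h10, he4.le, h11.le, he5, he⟩

noncomputable def NN (b e : ℕ → ℝ) : ℕ → ℕ
  | 0 => 1
  | (j + 1) => 2 * ⌊((b (j + 1) - b (j + 2)) / e j - 1) / 2⌋₊ + 1

noncomputable def tt (e : ℕ → ℝ) : ℕ → ℝ
  | 0 => 1 / 4
  | (j + 1) => e j / 2

end SeqAux

open SeqAux in
theorem seq : S_SEQ := by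
  intro w hw hD
  obtain ⟨c, -, hc, hclim⟩ := exists_seq_strictMono_tendsto' hD
  obtain ⟨c, hcmono, hc, hclim⟩ := exists_seq_strictMono_tendsto' hD
  obtain ⟨r, hr0, hrc⟩ := EReal.lt_iff_exists_real_btwn.1 (hc 0).1
  have hr : 0 < r := by exact_mod_cast hr0
  have hrc' : ∀ k, (r : EReal) ≤ c k := fun k => hrc.le.trans (hcmono.monotone (Nat.zero_le k))
  have hst : ∀ (k : ℕ) (β : ℝ), ∃ e : ℝ, 0 < β → (0 < e ∧ e < 1 ∧ 0 < w e ∧ w e ≤ β / 2 ∧
      8 * e ≤ w e ∧ (k : ℝ) ≤ |Real.log e| ∧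
      c k < ((Real.log (w e / e) / |Real.log e| : ℝ) : EReal)) := by
    intro k β
    by_cases hβ : 0 < β
    · obtain ⟨e, he⟩ := step w hw r hr (c k) (hrc' k) (hc k).2 k β hβ
      exact ⟨e, fun _ => he⟩
    · exact ⟨0, fun h => absurd h hβ⟩
  choose E hE using hst
  obtain ⟨b, hb0, hbs⟩ : ∃ b : ℕ → ℝ, b 0 = 1 ∧ ∀ k, b (k + 1) = w (E k (b k)) :=
    ⟨fun k => Nat.rec 1 (fun k β => w (E k β)) k, rfl, fun k => rfl⟩
  have hbpos : ∀ k, 0 < b k := by
    intro k
    induction k with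
    | zero => rw [hb0]; exact one_pos
    | succ k ih => rw [hbs]; exact (hE k (b k) ih).2.2.1
  obtain ⟨e, hedef⟩ : ∃ e : ℕ → ℝ, ∀ k, e k = E k (b k) := ⟨fun k => E k (b k), fun _ => rfl⟩
  have hbe : ∀ k, b (k + 1) = w (e k) := fun k => by rw [hbs, hedef]
  have he : ∀ k, 0 < e k ∧ e k < 1 ∧ 0 < w (e k) ∧ w (e k) ≤ b k / 2 ∧ 8 * e k ≤ w (e k) ∧
      (k : ℝ) ≤ |Real.log (e k)| ∧
      c k < ((Real.log (w (e k) / e k) / |Real.log (e k)| : ℝ) : EReal) := fun k => by
    rw [hedef]; exact hE k (b k) (hbpos k)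
  have hhalf : ∀ k, b (k + 1) ≤ b k / 2 := fun k => by rw [hbe]; exact (he k).2.2.2.1
  -- the number x_j
  have hx : ∀ j, b (j + 1) / (2 * e j) ≤ (b (j + 1) - b (j + 2)) / e j := by
    intro j
    have h1 := hhalf (j + 1)
    have h2 := (he j).1
    rw [div_le_div_iff₀ (by positivity) h2]
    have h3 : b (j + 1) ≤ 2 * (b (j + 1) - b (j + 2)) := by linarith
    nlinarith
  have hr8 : ∀ j, 8 ≤ b (j + 1) / e j := by
    intro j
    rw [le_div_iff₀ (he j).1, hbe]
    exact (he j).2.2.2.2.1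
  have hx4 : ∀ j, 4 ≤ (b (j + 1) - b (j + 2)) / e j := by
    intro j
    refine le_trans ?_ (hx j)
    have h1 := hr8 j
    have h2 : b (j + 1) / (2 * e j) = (b (j + 1) / e j) / 2 := by
      rw [div_div, mul_comm]
    rw [h2]
    linarith
  have hN1 : ∀ j, ((NN b e (j + 1) : ℕ) : ℝ) ≤ (b (j + 1) - b (j + 2)) / e j := by
    intro j
    have h1 := hx4 j
    have h2 : ((⌊((b (j + 1) - b (j + 2)) / e j - 1) / 2⌋₊ : ℕ) : ℝ) ≤
        ((b (j + 1) - b (j + 2)) / e j - 1) / 2 := Nat.floor_le (by linarith)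
    have h3 : ((NN b e (j + 1) : ℕ) : ℝ) =
        2 * ((⌊((b (j + 1) - b (j + 2)) / e j - 1) / 2⌋₊ : ℕ) : ℝ) + 1 := by
      rw [NN]
      push_cast
      ring
    rw [h3]
    linarith
  have hNpos : ∀ k, 0 < NN b e k := by
    intro k
    cases k with
    | zero => rw [NN]; exact one_pos
    | succ j => rw [NN]; omega
  have hN2 : ∀ j, b (j + 1) / e j / 8 ≤ (((NN b e (j + 1) + 1) / 2 : ℕ) : ℝ) := by
    intro j
    have h1 : (NN b e (j + 1) + 1) / 2 = ⌊((b (j + 1) - b (j + 2)) / e j - 1) / 2⌋₊ + 1 := by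
      rw [NN]
      omega
    rw [h1]
    push_cast
    have h2 := Nat.lt_floor_add_one (((b (j + 1) - b (j + 2)) / e j - 1) / 2)
    have h3 := hx j
    have h4 : b (j + 1) / (2 * e j) = (b (j + 1) / e j) / 2 := by
      rw [div_div, mul_comm]
    rw [h4] at h3
    have h5 := hr8 j
    linarith
  have heN : ∀ j, e j ≤ (b (j + 1) - b (j + 2)) / (NN b e (j + 1) : ℕ) := by
    intro j
    have h1 := hN1 j
    have h2 : (0 : ℝ) < (NN b e (j + 1) : ℕ) := by exact_mod_cast hNpos (j + 1)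
    rw [le_div_iff₀ (he j).1] at h1
    rw [le_div_iff₀ h2]
    linarith
  have hw12 : w 1 / 2 ≤ w (1 / 2) := by
    have h1 := hw.conc.2 (show (1 : ℝ) ∈ Set.Ici 0 from Set.mem_Ici.2 zero_le_one)
      (show (0 : ℝ) ∈ Set.Ici 0 from Set.mem_Ici.2 le_rfl) (show (0 : ℝ) ≤ 1 / 2 by norm_num)
      (show (0 : ℝ) ≤ 1 / 2 by norm_num) (by norm_num)
    simp only [smul_eq_mul, mul_one, mul_zero, add_zero, hw.zero] at h1
    linarith
  have hw1 := hw.pos
  have hwnn : ∀ x, 0 ≤ x → 0 ≤ w x := fun x hx => by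
    have := hw.mono (Set.mem_Ici.2 le_rfl) (Set.mem_Ici.2 hx) hx
    rw [hw.zero] at this
    exact this
  refine ⟨max 1 (2 / w 1), b, NN b e, tt e, le_max_left _ _, hb0,
    fun k => ⟨hbpos (k + 1), hhalf k⟩, ?_, ?_, ?_, ?_, ?_⟩
  · intro k
    cases k with
    | zero => rw [NN]
    | succ j => rw [NN]; omega
  · intro k
    cases k with
    | zero =>
      have h1 := hhalf 0
      rw [hb0] at h1
      rw [hb0, NN, Nat.cast_one, div_one]
      have h2 : w (1 / 2) ≤ w (1 - b (0 + 1)) := by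
        refine hw.mono ?_ ?_ (by linarith)
        · rw [Set.mem_Ici]; norm_num
        · rw [Set.mem_Ici]; linarith
      have h3 : (2 / w 1) * (w 1 / 2) = 1 := by field_simp
      have h4 : (2 / w 1) * (w 1 / 2) ≤ max 1 (2 / w 1) * w (1 - b (0 + 1)) := by
        refine mul_le_mul (le_max_right _ _) (hw12.trans h2) (by positivity) (by positivity)
      have h5 := hbpos 1
      have h6 : b (0 + 1) = b 1 := rfl
      linarith
    | succ j =>
      have h1 := heN j
      have h2 := hw.mono (Set.mem_Ici.2 (he j).1.le) (Set.mem_Ici.2 ((he j).1.le.trans h1)) h1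
      have h3 := hbpos (j + 2)
      have h4 := hbe j
      have h5 : w ((b (j + 1) - b (j + 1 + 1)) / (NN b e (j + 1) : ℕ)) ≤
          max 1 (2 / w 1) * w ((b (j + 1) - b (j + 1 + 1)) / (NN b e (j + 1) : ℕ)) :=
        le_mul_of_one_le_left (hwnn _ ((he j).1.le.trans h1)) (le_max_left _ _)
      have h6 : b (j + 1 + 1) = b (j + 2) := rfl
      linarith
  · intro k
    cases k with
    | zero =>
      have h1 := hhalf 0
      rw [hb0] at h1
      rw [hb0, NN, tt, Nat.cast_one, div_one]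
      constructor
      · norm_num
      · linarith
    | succ j =>
      rw [tt]
      have h1 := (he j).1
      exact ⟨by positivity, lt_of_lt_of_le (by linarith) (heN j)⟩
  · -- t → 0
    have hlog : Tendsto (fun j => |Real.log (e j)|) atTop atTop :=
      tendsto_atTop_mono (fun j => (he j).2.2.2.2.2.1) tendsto_natCast_atTop_atTop
    have h1 : Tendsto e atTop (𝓝 0) := by
      have h2 : ∀ j, e j = Real.exp (-|Real.log (e j)|) := by
        intro j
        have h3 := (he j).1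
        have h4 : Real.log (e j) < 0 := Real.log_neg h3 (he j).2.1
        rw [abs_of_neg h4, neg_neg, Real.exp_log h3]
      have h5 : Tendsto (fun j => Real.exp (-|Real.log (e j)|)) atTop (𝓝 0) :=
        Real.tendsto_exp_neg_atTop_nhds_zero.comp hlog
      exact h5.congr fun j => (h2 j).symm
    rw [← tendsto_add_atTop_iff_nat 1]
    have h2 : (fun n => tt e (n + 1)) = fun n => e n / 2 := by
      funext n
      rw [tt]
    rw [h2]
    have := h1.div_const 2
    rw [zero_div] at this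
    exact this
  · -- the limsup
    have hlog : Tendsto (fun j => |Real.log (e j)|) atTop atTop :=
      tendsto_atTop_mono (fun j => (he j).2.2.2.2.2.1) tendsto_natCast_atTop_atTop
    by_contra hcon
    rw [not_le] at hcon
    obtain ⟨a, ha1, ha2⟩ := EReal.lt_iff_exists_real_btwn.1 hcon
    obtain ⟨a', ha3, ha4⟩ := EReal.lt_iff_exists_real_btwn.1 ha2
    have haa : a < a' := by exact_mod_cast ha3
    have hev1 := eventually_lt_of_limsup_lt ha1 (by isBoundedDefault)
    rw [← eventually_map (m := fun n : ℕ => n)] at hev1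
    have hev2 : ∀ᶠ j in atTop, (a' : EReal) < c j := hclim.eventually (Ioi_mem_nhds ha4)
    have hev3 : ∀ᶠ j in atTop, (|a| * Real.log 2 + Real.log 8) / (a' - a) ≤ |Real.log (e j)| :=
      hlog.eventually_ge_atTop _
    have hev4 : ∀ᶠ j in atTop, (1 : ℝ) ≤ |Real.log (e j)| := hlog.eventually_ge_atTop _
    have hev1' := (tendsto_add_atTop_nat 1).eventually hev1
    obtain ⟨j, hj1, hj2, hj3, hj4⟩ := (hev1'.and (hev2.and (hev3.and hev4))).exists
    have hj1' : Real.log (((NN b e (j + 1) + 1) / 2 : ℕ) : ℝ) / |Real.log (tt e (j + 1))| < a := by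
      exact_mod_cast hj1
    have h1 := (he j).1
    have h2 : Real.log (e j) < 0 := Real.log_neg h1 (he j).2.1
    have hlog2 : 0 < Real.log 2 := Real.log_pos (by norm_num)
    have h3 : |Real.log (tt e (j + 1))| = |Real.log (e j)| + Real.log 2 := by
      rw [tt, Real.log_div h1.ne' (by norm_num), abs_of_neg h2, abs_of_neg (by linarith)]
      ring
    have h4 : Real.log (b (j + 1) / e j) - Real.log 8 ≤
        Real.log (((NN b e (j + 1) + 1) / 2 : ℕ) : ℝ) := by
      have h5 : 0 < b (j + 1) / e j := div_pos (hbpos _) h1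
      rw [← Real.log_div h5.ne' (by norm_num)]
      exact Real.log_le_log (by positivity) (hN2 j)
    have h5 : a' < Real.log (b (j + 1) / e j) / |Real.log (e j)| := by
      have := hj2.trans (he j).2.2.2.2.2.2
      rw [← hbe] at this
      exact_mod_cast this
    have hL : 0 < |Real.log (e j)| := by linarith
    rw [lt_div_iff₀ hL] at h5
    rw [h3, div_lt_iff₀ (by linarith)] at hj1'
    rw [div_le_iff₀ (by linarith)] at hj3
    have h6 := le_abs_self a
    nlinarith

end Pool.Agent.K9h65.MD
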