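import Pool.Agent.K9h65.MD.Stm2

/-!
The leaf SEQ2 (helper57's copy): the choice of the scales, geometric version.
-/

set_option autoImplicit false

namespace Pool.Agent.K9h65.MD.S57

open Filter Topology
open Pool.Agent.K9h65.MD

lemma w_ge {w : ℝ → ℝ} (hw : IsMod w) {x : ℝ} (h0 : 0 ≤ x) (h1 : x ≤ 1) : x * w 1 ≤ w x := by
  have h2 := hw.conc.2 (show (1 : ℝ) ∈ Set.Ici 0 from Set.mem_Ici.2 zero_le_one)
    (show (0 : ℝ) ∈ Set.Ici 0 from Set.mem_Ici.2 le_rfl) h0 (show (0 : ℝ) ≤ 1 - x by linarith)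
    (by ring)
  simp only [smul_eq_mul, mul_one, mul_zero, add_zero, hw.zero] at h2
  exact h2

theorem seq2 : S_SEQ2 := by
  intro w hw
  have hw1 := hw.pos
  obtain ⟨e, he⟩ : ∃ e : ℕ → ℝ, ∀ k : ℕ, e k = Real.exp (-(k : ℝ)) := ⟨_, fun _ => rfl⟩
  have he0 : ∀ k, 0 < e k := fun k => by rw [he]; exact Real.exp_pos _
  have he1 : ∀ k, e k ≤ 1 := fun k => by
    rw [he, Real.exp_le_one_iff]
    have : (0 : ℝ) ≤ k := Nat.cast_nonneg k
    linarith
  have hemono : ∀ k, e (k + 1) ≤ e k := fun k => by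
    rw [he, he]
    apply Real.exp_le_exp.2
    push_cast
    linarith
  have hwe0 : ∀ k, 0 < w (e k) := fun k =>
    lt_of_lt_of_le (mul_pos (he0 k) hw1) (w_ge hw (he0 k).le (he1 k))
  have hwe1 : ∀ k, w (e k) ≤ w 1 := fun k =>
    hw.mono (Set.mem_Ici.2 (he0 k).le) (Set.mem_Ici.2 zero_le_one) (he1 k)
  have hwm : ∀ k, w (e (k + 1)) ≤ w (e k) := fun k =>
    hw.mono (Set.mem_Ici.2 (he0 (k + 1)).le) (Set.mem_Ici.2 (he0 k).le) (hemono k)
  obtain ⟨b, hb⟩ : ∃ b : ℕ → ℝ, ∀ k : ℕ, b k = w (e k) / (w 1 * ((k : ℝ) + 1)) := ⟨_, fun _ => rfl⟩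
  have hk1 : ∀ k : ℕ, (0 : ℝ) < (k : ℝ) + 1 := fun k => by positivity
  have hk2 : ∀ k : ℕ, (0 : ℝ) < (k : ℝ) + 2 := fun k => by positivity
  have hb0 : ∀ k, 0 < b k := fun k => by
    rw [hb]
    exact div_pos (hwe0 k) (mul_pos hw1 (hk1 k))
  -- upper bound of b (k+1)
  have hbs : ∀ k : ℕ, b (k + 1) ≤ w (e k) / (w 1 * ((k : ℝ) + 2)) := fun k => by
    rw [hb]
    have h3 : ((k + 1 : ℕ) : ℝ) + 1 = (k : ℝ) + 2 := by push_cast; ring
    rw [h3]
    exact div_le_div_of_nonneg_right (hwm k) (mul_pos hw1 (hk2 k)).le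
  have hl : ∀ k : ℕ, w (e k) / (w 1 * (((k : ℝ) + 1) * ((k : ℝ) + 2))) ≤ b k - b (k + 1) := fun k => by
    have h1 := hbs k
    have h2 : w (e k) / (w 1 * ((k : ℝ) + 1)) - w (e k) / (w 1 * ((k : ℝ) + 2)) =
        w (e k) / (w 1 * (((k : ℝ) + 1) * ((k : ℝ) + 2))) := by
      have h3 := (hk1 k).ne'
      have h4 := (hk2 k).ne'
      have h5 := hw1.ne'
      field_simp
      ring
    rw [← h2, hb k]
    linarith
  have hlpos : ∀ k : ℕ, 0 < b k - b (k + 1) := fun k =>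
    lt_of_lt_of_le (div_pos (hwe0 k) (mul_pos hw1 (mul_pos (hk1 k) (hk2 k)))) (hl k)
  have hble : ∀ k : ℕ, b k ≤ w (e k) / w 1 := fun k => by
    rw [hb]
    apply div_le_div_of_nonneg_left (hwe0 k).le hw1
    have : (0 : ℝ) ≤ k := Nat.cast_nonneg k
    nlinarith
  have hlle : ∀ k : ℕ, b k - b (k + 1) ≤ w (e k) / w 1 := fun k => by
    have h1 := hble k
    have h2 := hb0 (k + 1)
    linarith
  have hl1 : ∀ k : ℕ, b k - b (k + 1) ≤ 1 := fun k => by
    refine (hlle k).trans ?_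
    rw [div_le_one hw1]
    exact hwe1 k
  obtain ⟨N, hN⟩ : ∃ N : ℕ → ℕ, ∀ k, N k = 2 * ⌊((b k - b (k + 1)) / e k - 1) / 2⌋₊ + 1 :=
    ⟨_, fun _ => rfl⟩
  have hNpos : ∀ k, 0 < N k := fun k => by rw [hN]; omega
  have hNe : ∀ k, N k = 1 ∨ e k ≤ (b k - b (k + 1)) / N k := fun k => by
    rcases Nat.eq_zero_or_pos ⌊((b k - b (k + 1)) / e k - 1) / 2⌋₊ with h | h
    · left
      rw [hN, h]
    · right
      have h1 : (0 : ℝ) ≤ ((b k - b (k + 1)) / e k - 1) / 2 := by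
        by_contra hneg
        rw [Nat.floor_of_nonpos (not_le.1 hneg).le] at h
        exact lt_irrefl _ h
      have h2 : ((⌊((b k - b (k + 1)) / e k - 1) / 2⌋₊ : ℕ) : ℝ) ≤
          ((b k - b (k + 1)) / e k - 1) / 2 := Nat.floor_le h1
      have h3 : ((N k : ℕ) : ℝ) = 2 * ((⌊((b k - b (k + 1)) / e k - 1) / 2⌋₊ : ℕ) : ℝ) + 1 := by
        rw [hN]
        push_cast
        ring
      have h4 : ((N k : ℕ) : ℝ) ≤ (b k - b (k + 1)) / e k := by
        rw [h3]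
        linarith
      have h5 : (0 : ℝ) < N k := by exact_mod_cast hNpos k
      rw [le_div_iff₀ (he0 k)] at h4
      rw [le_div_iff₀ h5]
      linarith
  refine ⟨1 / w 1, b, N, by positivity, ?_, fun k => ⟨hb0 (k + 1), ?_⟩, ?_, fun k => ?_, fun k => ?_,
    fun k => ?_, fun k => ?_⟩
  · rw [hb, he]
    simp [hw1.ne']
  · have := hlpos k
    linarith
  · -- b → 0
    have h1 : Tendsto e atTop (𝓝[>] 0) := by
      rw [tendsto_nhdsWithin_iff]
      refine ⟨?_, Eventually.of_forall fun k => he0 k⟩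
      have h2 : Tendsto (fun k : ℕ => Real.exp (-(k : ℝ))) atTop (𝓝 0) :=
        Real.tendsto_exp_neg_atTop_nhds_zero.comp tendsto_natCast_atTop_atTop
      exact h2.congr fun k => (he k).symm
    have h3 : Tendsto (fun k => w (e k) / w 1) atTop (𝓝 0) := by
      have h4 := (hw.lim.comp h1).div_const (w 1)
      rw [zero_div] at h4
      exact h4
    exact squeeze_zero (fun k => (hb0 k).le) hble h3
  · rw [hN]
    omega
  · rcases hNe k with h | h
    · rw [h, Nat.cast_one, div_one]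
      have h1 := w_ge hw (hlpos k).le (hl1 k)
      rw [one_div, inv_mul_eq_div, le_div_iff₀ hw1]
      exact h1
    · have h1 := hw.mono (Set.mem_Ici.2 (he0 k).le) (Set.mem_Ici.2 ((he0 k).le.trans h)) h
      have h2 := hlle k
      refine h2.trans ?_
      rw [one_div, inv_mul_eq_div]
      exact div_le_div_of_nonneg_right h1 hw1.le
  · rw [← he]
    exact hNe k
  · rw [← he]
    have h1 : (N k + 1) / 2 = ⌊((b k - b (k + 1)) / e k - 1) / 2⌋₊ + 1 := by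
      rw [hN]
      omega
    have h2 : (b k - b (k + 1)) / e k / 4 ≤ (((N k + 1) / 2 : ℕ) : ℝ) := by
      rw [h1]
      push_cast
      have h3 := Nat.lt_floor_add_one (((b k - b (k + 1)) / e k - 1) / 2)
      have h4 : (0 : ℝ) ≤ ((⌊((b k - b (k + 1)) / e k - 1) / 2⌋₊ : ℕ) : ℝ) := Nat.cast_nonneg _
      by_cases h5 : (b k - b (k + 1)) / e k ≤ 2
      · linarith
      · linarith [not_le.1 h5]
    have h6 := hl k
    have h7 : w (e k) ≤ (b k - b (k + 1)) * (w 1 * (((k : ℝ) + 1) * ((k : ℝ) + 2))) := by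
      rwa [div_le_iff₀ (mul_pos hw1 (mul_pos (hk1 k) (hk2 k)))] at h6
    have h8 : w (e k) / e k ≤ (b k - b (k + 1)) / e k * (w 1 * (((k : ℝ) + 1) * ((k : ℝ) + 2))) := by
      rw [div_mul_eq_mul_div]
      exact div_le_div_of_nonneg_right h7 (he0 k).le
    have h9 : (0 : ℝ) < w 1 * (((k : ℝ) + 1) * ((k : ℝ) + 2)) := mul_pos hw1 (mul_pos (hk1 k) (hk2 k))
    calc w (e k) / e k ≤ (b k - b (k + 1)) / e k * (w 1 * (((k : ℝ) + 1) * ((k : ℝ) + 2))) := h8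
      _ = 4 * (w 1 * (((k : ℝ) + 1) * ((k : ℝ) + 2))) * ((b k - b (k + 1)) / e k / 4) := by ring
      _ ≤ 4 * (w 1 * (((k : ℝ) + 1) * ((k : ℝ) + 2))) * (((N k + 1) / 2 : ℕ) : ℝ) :=
        mul_le_mul_of_nonneg_left h2 (by positivity)
      _ = 4 * w 1 * ((k : ℝ) + 1) * ((k : ℝ) + 2) * (((N k + 1) / 2 : ℕ) : ℝ) := by ring

end Pool.Agent.K9h65.MD.S57

namespace Pool.Agent.K9h65.MD

theorem seq2 : S_SEQ2 := S57.seq2

end Pool.Agent.K9h65.MD
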