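import Mathlib

/-!
# Metric mean dimension of interval maps with a given modulus of continuity (MP_428550_an): definitions and
statements of the leaves
-/

set_option autoImplicit false

namespace Pool.Agent.K9h65.MD

open Filter Topology

/-- The interval `[0,1]`. -/
abbrev I : Type := Set.Icc (0 : ℝ) 1

/-- `d_n(x,y) = max_{0 ≤ j < n} |φ^j(x) - φ^j(y)|`. -/
noncomputable def dn (φ : I → I) (n : ℕ) (x y : I) : ℝ :=
  ⨆ j : Fin n, |((φ^[j] x : I) : ℝ) - ((φ^[j] y : I) : ℝ)|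

/-- `A` is `(n, φ, ε)`-separated. -/
def Separated (φ : I → I) (n : ℕ) (ε : ℝ) (A : Finset I) : Prop :=
  ∀ x ∈ A, ∀ y ∈ A, x ≠ y → ε < dn φ n x y

/-- `sep(n, φ, ε)`: the maximal cardinality of an `(n, φ, ε)`-separated set. -/
noncomputable def sepN (φ : I → I) (n : ℕ) (ε : ℝ) : ENNReal :=
  ⨆ A : {A : Finset I // Separated φ n ε A}, ((A.1.card : ℕ) : ENNReal)

/-- `sep(φ, ε) = limsup (1/n) log sep(n, φ, ε)`. -/
noncomputable def sepRate (φ : I → I) (ε : ℝ) : EReal :=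
  limsup (fun n : ℕ => ENNReal.log (sepN φ n ε) / ((n : ℝ) : EReal)) atTop

/-- The upper metric mean dimension. -/
noncomputable def upperMdim (φ : I → I) : EReal :=
  limsup (fun ε : ℝ => sepRate φ ε / ((|Real.log ε| : ℝ) : EReal)) (𝓝[>] 0)

/-- `w` is a concave modulus of continuity: concave and nondecreasing on `[0, ∞)`, `w 0 = 0`,
`w (t) → 0` as `t → 0`, and not identically zero. -/
structure IsMod (w : ℝ → ℝ) : Prop where
  conc : ConcaveOn ℝ (Set.Ici 0) w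
  mono : MonotoneOn w (Set.Ici 0)
  zero : w 0 = 0
  lim : Tendsto w (𝓝[>] 0) (𝓝 0)
  pos : 0 < w 1

/-- `φ` has the modulus of continuity `K w`. -/
def HasMod (w : ℝ → ℝ) (K : ℝ) (φ : I → I) : Prop :=
  ∀ x y : I, |((φ x : I) : ℝ) - ((φ y : I) : ℝ)| ≤ K * w |(x : ℝ) - (y : ℝ)|

/-- The exponent `limsup log (w(ε) / ε) / |log ε| = 1 - liminf log w(ε) / log ε`. -/
noncomputable def D (w : ℝ → ℝ) : EReal :=
  limsup (fun ε : ℝ => ((Real.log (w ε / ε) / |Real.log ε| : ℝ) : EReal)) (𝓝[>] 0)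

/-- the zigzag: the distance to the nearest even integer -/
noncomputable def tri (t : ℝ) : ℝ := |t - 2 * round (t / 2)|

/-- LEAF UB (Ub.lean, `theorem ub : S_UB`). Upper bound: the proof of
`Pool/Agent/Results/MP_428550_an/HolderBound.lean` with `K * w ε` in place of `K * ε ^ α`
(`w |x - y| ≤ w ε` by monotonicity). Then `⌊K * w ε / ε⌋₊ + 2 ≤ (K + 2 / w 1) * (w ε / ε)` for `ε < 1`, as
`w ε / ε ≥ w 1` (concavity), so `sepRate φ ε / |log ε| ≤ log (K + 2 / w 1) / |log ε| + log (w ε / ε) / |log ε|`,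
and the first term tends to zero. -/
def S_UB : Prop := ∀ (w : ℝ → ℝ), IsMod w → ∀ (φ : I → I) (K : ℝ), 0 < K → HasMod w K φ →
  upperMdim φ ≤ D w

/-- LEAF SYM (Sym.lean, `theorem sym : S_SYM`). Horseshoes: if `g i`, `i < M`, are inverse branches of `φ` on
`J` with images at mutual distance `> ε`, the points `g i₀ (g i₁ (⋯ (g i_(n-1) y₀)))` for the `M ^ n` words are
`(n, φ, ε)`-separated: at the first place `j` at which the words differ `φ^j` of the two points are in the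
images of different branches. So `M ^ n ≤ sepN φ n ε`, `log M ≤ (1/n) log sepN φ n ε`. -/
def S_SYM : Prop := ∀ (φ : I → I) (M : ℕ) (ε : ℝ) (J : Set I) (g : Fin M → I → I), 1 ≤ M →
  0 < ε → J.Nonempty → (∀ i, ∀ y ∈ J, g i y ∈ J ∧ φ (g i y) = y) →
  (∀ i i', i ≠ i' → ∀ y ∈ J, ∀ y' ∈ J, ε < |((g i y : I) : ℝ) - ((g i' y' : I) : ℝ)|) →
  ((Real.log M : ℝ) : EReal) ≤ sepRate φ ε

/-- LEAF CON (Con.lean, `theorem con : S_CON`). The map. On the interval `J k = [b (k+1), b k]` of length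
`l = b k - b (k+1)` it is the zigzag with `N k` branches `Z x = b (k+1) + l * tri (N k * (x - b (k+1)) / l)`, and
`φ 0 = 0`; `Z` fixes the end points of `J k` as `N k` is odd. For `x`, `y` in the same `J k`,
`|φ x - φ y| ≤ min (l, N k |x - y|) ≤ w |x - y|` (`tri` is 1-Lipschitz with values in `[0,1]`; if
`|x - y| ≥ l / N k`: `l ≤ w (l / N k) ≤ w |x - y|`; otherwise `w δ / δ ≥ w (l / N k) / (l / N k) ≥ N k` by
concavity). For `x < y` in different intervals compare with the end points `x ≤ p ≤ q ≤ y` (`φ p = p`,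
`φ q = q`): `|φ x - φ y| ≤ w |x - p| + |p - q| + w |q - y| ≤ (2 + 1 / w 1) w |x - y|`. -/
def S_CON : Prop := ∀ (w : ℝ → ℝ), IsMod w → ∀ (b : ℕ → ℝ) (N : ℕ → ℕ), b 0 = 1 →
  (∀ k, 0 < b (k + 1) ∧ b (k + 1) ≤ b k / 2) → (∀ k, N k % 2 = 1) →
  (∀ k, b k - b (k + 1) ≤ w ((b k - b (k + 1)) / N k)) →
  ∃ φ : I → I, HasMod w (2 + 1 / w 1) φ ∧ ∀ (k : ℕ) (x : I), b (k + 1) ≤ x → (x : ℝ) ≤ b k →
    ((φ x : I) : ℝ) = b (k + 1) + (b k - b (k + 1)) *
      tri (N k * ((x : ℝ) - b (k + 1)) / (b k - b (k + 1)))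

/-- LEAF BR (Br.lean, `theorem br (h : S_SYM) : S_BR`). The branches of the zigzag: apply `h` with
`J = {x | a ≤ x ≤ c}`, `l = c - a`, `M = (N + 1) / 2`, `g i y = a + (2 i l + (y - a)) / N`. For `y = a + s l`,
`0 ≤ s ≤ 1`, `x = g i y`: `N (x - a) / l = 2 i + s`, `tri (2 i + s) = s`, so `φ x = y`; `2 i + s ≤ N`; and the
distance of the images of two different branches is at least `(2 l - l) / N = l / N > ε`. -/
def S_BR : Prop := ∀ (φ : I → I) (a c : ℝ) (N : ℕ) (ε : ℝ), 0 ≤ a → a < c → c ≤ 1 → N % 2 = 1 →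
  (∀ x : I, a ≤ x → (x : ℝ) ≤ c → ((φ x : I) : ℝ) = a + (c - a) * tri (N * ((x : ℝ) - a) / (c - a))) →
  0 < ε → ε < (c - a) / N → ((Real.log (((N + 1) / 2 : ℕ) : ℝ) : ℝ) : EReal) ≤ sepRate φ ε

/-- LEAF SEQ (Seq.lean, `theorem seq : S_SEQ`). The choice of the scales, for `0 < D w`. Let `c k` be positive
reals tending to `D w` from below (in `EReal`). By definition of the limsup there are arbitrarily small `e`
with `log (w e / e) / |log e| > c k`, so `w e / e > e ^ (- c k)` is large. Choose `e (k+1)` so small that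
`w (e (k+1)) ≤ b k / 2`, `w (e (k+1)) / e (k+1) ≥ 8`, `|log (e (k+1))| ≥ k`, and put `b (k+1) = w (e (k+1))`. For
`k ≥ 1` let `N k` be the largest odd number with `N k ≤ (b k - b (k+1)) / e k` (`≥ 4 - ...`, and `N 0 = 1`; for
`k = 0` the inequality of the third clause is not needed with `N 0`, see the fourth: it is required for all
`k`, so use that for `N 0 = 1` it reads `1 - b 1 ≤ w (1 - b 1)`; to be safe the modulus is `K₀ w`).
Then `(b k - b (k+1)) / N k ≥ e k`, so `w (⋯) ≥ w (e k) = b k`, and `N k + 1 ≥ w (e k) / (4 e k)`. -/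
def S_SEQ : Prop := ∀ (w : ℝ → ℝ), IsMod w → 0 < D w → ∃ (K : ℝ) (b : ℕ → ℝ) (N : ℕ → ℕ) (t : ℕ → ℝ),
  1 ≤ K ∧ b 0 = 1 ∧ (∀ k, 0 < b (k + 1) ∧ b (k + 1) ≤ b k / 2) ∧ (∀ k, N k % 2 = 1) ∧
  (∀ k, b k - b (k + 1) ≤ K * w ((b k - b (k + 1)) / N k)) ∧
  (∀ k, 0 < t k ∧ t k < (b k - b (k + 1)) / N k) ∧ Tendsto t atTop (𝓝 0) ∧
  D w ≤ limsup (fun k : ℕ => ((Real.log (((N k + 1) / 2 : ℕ) : ℝ) / |Real.log (t k)| : ℝ) : EReal)) atTop

/-- LEAF HOL (Hol.lean, `theorem hol : S_HOL`). `D w ≤ 1` (as `w ε < 1` for small `ε`), `0 ≤ D w` (as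
`w ε / ε ≥ w 1`), and `D w < 1` if and only if `w` is Hölder: if `w x ≤ C x ^ α` then
`log (w ε / ε) / |log ε| ≤ (log C) / |log ε| + 1 - α`; if `D w < 1` take real `α > 0` with `D w < 1 - α`, then
`w ε ≤ ε ^ α` for all `0 < ε < ε₀`, and `w x ≤ w 1 ≤ (w 1 / ε₀ ^ α) x ^ α` for `ε₀ ≤ x ≤ 1`. -/
def S_HOL : Prop := ∀ (w : ℝ → ℝ), IsMod w → 0 ≤ D w ∧ D w ≤ 1 ∧
  (D w < 1 ↔ ∃ α : ℝ, 0 < α ∧ ∃ C : ℝ, ∀ x : ℝ, 0 ≤ x → x ≤ 1 → w x ≤ C * x ^ α)

end Pool.Agent.K9h65.MD
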