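import Pool.Agent.K9h65.MD.Stm

/-!
# Second version: both metric mean dimensions, one map (statements of the leaves)
-/

set_option autoImplicit false

namespace Pool.Agent.K9h65.MD

open Filter Topology

/-- The lower metric mean dimension. -/
noncomputable def lowerMdim (φ : I → I) : EReal :=
  liminf (fun ε : ℝ => sepRate φ ε / ((|Real.log ε| : ℝ) : EReal)) (𝓝[>] 0)

/-- The exponent `liminf log (w(ε) / ε) / |log ε|`. -/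
noncomputable def DL (w : ℝ → ℝ) : EReal :=
  liminf (fun ε : ℝ => ((Real.log (w ε / ε) / |Real.log ε| : ℝ) : EReal)) (𝓝[>] 0)

/-- LEAF CON2 (Con2.lean, `theorem con2 : S_CON2`). As S_CON (ConMap.lean), where `b (k + 1) ≤ b k / 2` is only
used through `b (k + 1) < b k` and `b → 0`. -/
def S_CON2 : Prop := ∀ (w : ℝ → ℝ), IsMod w → ∀ (b : ℕ → ℝ) (N : ℕ → ℕ), b 0 = 1 →
  (∀ k, 0 < b (k + 1) ∧ b (k + 1) < b k) → Tendsto b atTop (𝓝 0) → (∀ k, N k % 2 = 1) →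
  (∀ k, b k - b (k + 1) ≤ w ((b k - b (k + 1)) / N k)) →
  ∃ φ : I → I, HasMod w (2 + 1 / w 1) φ ∧ ∀ (k : ℕ) (x : I), b (k + 1) ≤ x → (x : ℝ) ≤ b k →
    ((φ x : I) : ℝ) = b (k + 1) + (b k - b (k + 1)) *
      tri (N k * ((x : ℝ) - b (k + 1)) / (b k - b (k + 1)))

/-- LEAF SEQ2 (Seq2.lean, `theorem seq2 : S_SEQ2`). With `e k = exp (-k)`: `b k = w (e k) / (w 1 * (k + 1))`,
`l = b k - b (k+1)`, `N k = 2 * ⌊(l / e k - 1) / 2⌋₊ + 1`, `K = 1 / w 1`. Then `l ≤ b k ≤ w (e k) / w 1` and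
`l ≥ w (e k) / (w 1 (k+1) (k+2))`. If `N k ≠ 1` then `N k ≤ l / e k`, so `e k ≤ l / N k` and
`l ≤ K w (e k) ≤ K w (l / N k)`; if `N k = 1` use `l w 1 ≤ w l` (concavity, `l ≤ 1`). Finally
`(N k + 1) / 2 = ⌊(x - 1) / 2⌋₊ + 1 ≥ x / 4` for `x = l / e k`. -/
def S_SEQ2 : Prop := ∀ (w : ℝ → ℝ), IsMod w → ∃ (K : ℝ) (b : ℕ → ℝ) (N : ℕ → ℕ),
  0 < K ∧ b 0 = 1 ∧ (∀ k, 0 < b (k + 1) ∧ b (k + 1) < b k) ∧ Tendsto b atTop (𝓝 0) ∧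
  (∀ k, N k % 2 = 1) ∧ (∀ k, b k - b (k + 1) ≤ K * w ((b k - b (k + 1)) / N k)) ∧
  (∀ k, N k = 1 ∨ Real.exp (-(k : ℝ)) ≤ (b k - b (k + 1)) / N k) ∧
  (∀ k : ℕ, w (Real.exp (-(k : ℝ))) / Real.exp (-(k : ℝ)) ≤
    4 * w 1 * ((k : ℝ) + 1) * ((k : ℝ) + 2) * (((N k + 1) / 2 : ℕ) : ℝ))

/-- LEAF LU (Lim2.lean, `theorem lu : S_LU`). -/
def S_LU : Prop := ∀ (a r : ℝ → ℝ) (s : ℝ → EReal), Tendsto r (𝓝[>] 0) (𝓝 0) →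
  (∀ᶠ ε in 𝓝[>] (0 : ℝ), s ε ≤ ((a ε + r ε : ℝ) : EReal)) →
  limsup s (𝓝[>] 0) ≤ limsup (fun ε => ((a ε : ℝ) : EReal)) (𝓝[>] 0) ∧
  liminf s (𝓝[>] 0) ≤ liminf (fun ε => ((a ε : ℝ) : EReal)) (𝓝[>] 0)

/-- LEAF LL (Lim2.lean, `theorem ll : S_LL`). -/
def S_LL : Prop := ∀ (a r : ℝ → ℝ) (s : ℝ → EReal), Tendsto r (𝓝[>] 0) (𝓝 0) →
  (∀ᶠ ε in 𝓝[>] (0 : ℝ), ((a ε - r ε : ℝ) : EReal) ≤ s ε) →
  limsup (fun ε => ((a ε : ℝ) : EReal)) (𝓝[>] 0) ≤ limsup s (𝓝[>] 0) ∧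
  liminf (fun ε => ((a ε : ℝ) : EReal)) (𝓝[>] 0) ≤ liminf s (𝓝[>] 0)

/-- LEAF HOLL (Hol2.lean, `theorem holl : S_HOLL`). -/
def S_HOLL : Prop := ∀ (w : ℝ → ℝ), IsMod w → DL w ≤ 1 ∧
  (DL w < 1 ↔ ∃ α : ℝ, 0 < α ∧ ∃ᶠ ε : ℝ in 𝓝[>] 0, w ε ≤ ε ^ α)

/-- LEAF ASM (Asm2.lean): pointwise lower bound for one map -/
def S_ASM : Prop := ∀ (w : ℝ → ℝ), IsMod w → ∃ (φ : I → I) (K : ℝ), 0 < K ∧ HasMod w K φ ∧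
  ∃ C : ℝ, ∀ ε : ℝ, 0 < ε → ε < 1 →
    ((Real.log (w ε / ε) - 2 * Real.log (1 + |Real.log ε|) - C : ℝ) : EReal) ≤ sepRate φ ε

/-- LEAF UP (Up2.lean): pointwise upper bound -/
def S_UP : Prop := ∀ (w : ℝ → ℝ), IsMod w → ∀ (φ : I → I) (K : ℝ), 0 < K → HasMod w K φ →
  ∃ C : ℝ, ∀ ε : ℝ, 0 < ε → ε < 1 → sepRate φ ε ≤ ((Real.log (w ε / ε) + C : ℝ) : EReal)

end Pool.Agent.K9h65.MD
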