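import Pool.Agent.K9h65.MD.Stm

/-! # Horseshoes (leaf SYM, helper17) -/

set_option autoImplicit false

namespace Pool.Agent.K9h65.MD

open Filter Topology

namespace Sym17

variable {M : ℕ}

/-- the point with a given itinerary -/
def pt (g : Fin M → I → I) (y₀ : I) : ℕ → (ℕ → Fin M) → I
  | 0, _ => y₀
  | n + 1, s => g (s 0) (pt g y₀ n (fun k => s (k + 1)))

theorem pt_mem {g : Fin M → I → I} {J : Set I} {y₀ : I} (h0 : y₀ ∈ J)
    (hg : ∀ i, ∀ y ∈ J, g i y ∈ J) : ∀ (n : ℕ) (s : ℕ → Fin M), pt g y₀ n s ∈ J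
  | 0, _ => h0
  | n + 1, s => hg _ _ (pt_mem h0 hg n _)

theorem iter_pt {φ : I → I} {g : Fin M → I → I} {J : Set I} {y₀ : I} (h0 : y₀ ∈ J)
    (hg : ∀ i, ∀ y ∈ J, g i y ∈ J) (hφ : ∀ i, ∀ y ∈ J, φ (g i y) = y) :
    ∀ (j n : ℕ) (s : ℕ → Fin M), φ^[j] (pt g y₀ (n + j) s) = pt g y₀ n (fun k => s (k + j))
  | 0, _, _ => rfl
  | j + 1, n, s => by
    rw [Function.iterate_succ_apply]
    have h1 : pt g y₀ (n + (j + 1)) s = g (s 0) (pt g y₀ (n + j) (fun k => s (k + 1))) := rfl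
    rw [h1, hφ _ _ (pt_mem h0 hg _ _), iter_pt h0 hg hφ j n]
    congr 1

theorem far {φ : I → I} {ε : ℝ} {g : Fin M → I → I} {J : Set I} {y₀ : I} (h0 : y₀ ∈ J)
    (hg : ∀ i, ∀ y ∈ J, g i y ∈ J) (hφ : ∀ i, ∀ y ∈ J, φ (g i y) = y)
    (hfar : ∀ i i', i ≠ i' → ∀ y ∈ J, ∀ y' ∈ J, ε < |((g i y : I) : ℝ) - ((g i' y' : I) : ℝ)|)
    {n j : ℕ} (hj : j < n) {s s' : ℕ → Fin M} (hs : s j ≠ s' j) :
    ε < |((φ^[j] (pt g y₀ n s) : I) : ℝ) - ((φ^[j] (pt g y₀ n s') : I) : ℝ)| := by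
  obtain ⟨m, rfl⟩ : ∃ m, n = (m + 1) + j := ⟨n - j - 1, by omega⟩
  rw [iter_pt h0 hg hφ, iter_pt h0 hg hφ]
  have h1 : pt g y₀ (m + 1) (fun k => s (k + j)) =
      g (s (0 + j)) (pt g y₀ m (fun k => s (k + 1 + j))) := rfl
  have h2 : pt g y₀ (m + 1) (fun k => s' (k + j)) =
      g (s' (0 + j)) (pt g y₀ m (fun k => s' (k + 1 + j))) := rfl
  rw [h1, h2]
  exact hfar _ _ (by simpa using hs) _ (pt_mem h0 hg _ _) _ (pt_mem h0 hg _ _)

end Sym17

open Sym17

theorem sym : S_SYM := by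
  classical
  intro φ M ε J g hM hε hJ hg hfar
  obtain ⟨y₀, h0⟩ := hJ
  have hgJ : ∀ i, ∀ y ∈ J, g i y ∈ J := fun i y hy => (hg i y hy).1
  have hφ : ∀ i, ∀ y ∈ J, φ (g i y) = y := fun i y hy => (hg i y hy).2
  have hcount : ∀ n : ℕ, ((M ^ n : ℕ) : ENNReal) ≤ sepN φ n ε := by
    intro n
    obtain ⟨ex, hex⟩ : ∃ ex : (Fin n → Fin M) → ℕ → Fin M,
        ∀ s (j : Fin n), ex s j = s j := by
      refine ⟨fun s k => if h : k < n then s ⟨k, h⟩ else ⟨0, by omega⟩, fun s j => ?_⟩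
      exact dif_pos j.2
    have hkey : ∀ s s' : Fin n → Fin M, s ≠ s' → ∃ j : Fin n,
        ε < |((φ^[j] (pt g y₀ n (ex s)) : I) : ℝ) - ((φ^[j] (pt g y₀ n (ex s')) : I) : ℝ)| := by
      intro s s' hss
      obtain ⟨j, hj⟩ := Function.ne_iff.1 hss
      exact ⟨j, far h0 hgJ hφ hfar j.2 (by rw [hex, hex]; exact hj)⟩
    have hinj : Function.Injective (fun s : Fin n → Fin M => pt g y₀ n (ex s)) := by
      intro s s' h
      by_contra hss
      obtain ⟨j, hj⟩ := hkey s s' hss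
      have h' : pt g y₀ n (ex s) = pt g y₀ n (ex s') := h
      rw [h', sub_self, abs_zero] at hj
      exact absurd hε (not_lt.2 hj.le)
    have hsep : Separated φ n ε (Finset.univ.image (fun s : Fin n → Fin M => pt g y₀ n (ex s))) := by
      intro x hx y hy hxy
      obtain ⟨s, -, rfl⟩ := Finset.mem_image.1 hx
      obtain ⟨s', -, rfl⟩ := Finset.mem_image.1 hy
      obtain ⟨j, hj⟩ := hkey s s' (fun h => hxy (by rw [h]))
      refine lt_of_lt_of_le hj ?_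
      exact le_ciSup (f := fun j : Fin n => |((φ^[j] (pt g y₀ n (ex s)) : I) : ℝ) -
        ((φ^[j] (pt g y₀ n (ex s')) : I) : ℝ)|) (Set.finite_range _).bddAbove j
    have hcard : (Finset.univ.image (fun s : Fin n → Fin M => pt g y₀ n (ex s))).card = M ^ n := by
      rw [Finset.card_image_of_injective _ hinj, Finset.card_univ, Fintype.card_fun,
        Fintype.card_fin, Fintype.card_fin]
    rw [← hcard]
    exact le_iSup (fun A : {A : Finset I // Separated φ n ε A} => ((A.1.card : ℕ) : ENNReal))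
      ⟨_, hsep⟩
  have hev : ∀ n : ℕ, 1 ≤ n → ((Real.log M : ℝ) : EReal) ≤
      ENNReal.log (sepN φ n ε) / ((n : ℝ) : EReal) := by
    intro n hn
    have hn0 : (n : ℝ) ≠ 0 := by
      have : 0 < n := hn
      positivity
    have h1 : ENNReal.log ((M ^ n : ℕ) : ENNReal) = (((n : ℝ) * Real.log M : ℝ) : EReal) := by
      have h2 : ((M ^ n : ℕ) : ENNReal) ≠ 0 := by
        have : 0 < M ^ n := pow_pos (by omega) n
        exact_mod_cast this.ne'
      rw [ENNReal.log_pos_real h2 (ENNReal.natCast_ne_top _), ENNReal.toReal_natCast]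
      congr 1
      push_cast
      rw [Real.log_pow]
    have h2 : ENNReal.log ((M ^ n : ℕ) : ENNReal) ≤ ENNReal.log (sepN φ n ε) :=
      ENNReal.log_monotone (hcount n)
    have h3 : (0 : EReal) ≤ ((n : ℝ) : EReal) := by exact_mod_cast Nat.cast_nonneg n
    have h4 := EReal.div_le_div_right_of_nonneg h3 h2
    rw [h1, ← EReal.coe_div, mul_comm, mul_div_assoc, div_self hn0, mul_one] at h4
    exact h4
  unfold sepRate
  have h5 : ((Real.log M : ℝ) : EReal) =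
      limsup (fun _ : ℕ => ((Real.log M : ℝ) : EReal)) atTop := (limsup_const _).symm
  rw [h5]
  refine limsup_le_limsup ?_
  filter_upwards [eventually_ge_atTop 1] with n hn
  exact hev n hn

end Pool.Agent.K9h65.MD
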