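import Pool.Agent.K9h65.MD.Stm

/-!
# The upper bound (after `Pool/Agent/Results/MP_428550_an/HolderBound.lean`, by helper47)
-/

set_option autoImplicit false

namespace Pool.Agent.K9h65.MD.UbAux

open Filter Topology Pool.Agent.K9h65.MD

/-- the cell of a point -/
noncomputable def cell (ε : ℝ) (x : I) : ℕ := ⌊(x : ℝ) / ε⌋₊

theorem cell_close {ε : ℝ} (hε : 0 < ε) {x y : I} (h : cell ε x = cell ε y) :
    |(x : ℝ) - (y : ℝ)| < ε := by
  have hx0 : 0 ≤ (x : ℝ) / ε := div_nonneg x.2.1 hε.le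
  have hy0 : 0 ≤ (y : ℝ) / ε := div_nonneg y.2.1 hε.le
  have h1 : ((cell ε x : ℕ) : ℝ) ≤ (x : ℝ) / ε := Nat.floor_le hx0
  have h2 : (x : ℝ) / ε < (cell ε x : ℕ) + 1 := Nat.lt_floor_add_one _
  have h3 : ((cell ε y : ℕ) : ℝ) ≤ (y : ℝ) / ε := Nat.floor_le hy0
  have h4 : (y : ℝ) / ε < (cell ε y : ℕ) + 1 := Nat.lt_floor_add_one _
  rw [h] at h1 h2
  have h5 : |(x : ℝ) / ε - (y : ℝ) / ε| < 1 := by
    rw [abs_lt]
    constructor <;> linarith
  rw [← sub_div, abs_div, abs_of_pos hε, div_lt_one hε] at h5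
  exact h5

theorem window {w : ℝ → ℝ} (hw : IsMod w) {ε K : ℝ} (hε : 0 < ε) (hK : 0 < K) {φ : I → I}
    (hφ : HasMod w K φ) {x z : I} (h : cell ε x = cell ε z) :
    cell ε (φ x) < cell ε (φ z) + (⌊K * w ε / ε⌋₊ + 2) := by
  have h1 := cell_close hε h
  have h2 : |((φ x : I) : ℝ) - ((φ z : I) : ℝ)| ≤ K * w ε := by
    refine (hφ x z).trans ?_
    apply mul_le_mul_of_nonneg_left _ hK.le
    exact hw.mono (Set.mem_Ici.2 (abs_nonneg _)) (Set.mem_Ici.2 hε.le) h1.le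
  have h3 : ((φ x : I) : ℝ) / ε ≤ ((φ z : I) : ℝ) / ε + K * w ε / ε := by
    rw [← add_div]
    apply div_le_div_of_nonneg_right _ hε.le
    have := le_abs_self (((φ x : I) : ℝ) - ((φ z : I) : ℝ))
    linarith
  have h4 : ((φ z : I) : ℝ) / ε < (cell ε (φ z) : ℕ) + 1 := Nat.lt_floor_add_one _
  have h5 : K * w ε / ε < (⌊K * w ε / ε⌋₊ : ℕ) + 1 := Nat.lt_floor_add_one _
  have h6 : (cell ε (φ x) : ℝ) ≤ ((φ x : I) : ℝ) / ε :=
    Nat.floor_le (div_nonneg (φ x).2.1 hε.le)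
  have h7 : (cell ε (φ x) : ℝ) < ((cell ε (φ z) + (⌊K * w ε / ε⌋₊ + 2) : ℕ) : ℝ) := by
    push_cast
    linarith
  exact_mod_cast h7

/-- the least cell met by the image of a cell -/
noncomputable def low (φ : I → I) (ε : ℝ) (k : ℕ) : ℕ :=
  sInf {l | ∃ z : I, cell ε z = k ∧ cell ε (φ z) = l}

theorem low_le (φ : I → I) (ε : ℝ) (x : I) : low φ ε (cell ε x) ≤ cell ε (φ x) :=
  Nat.sInf_le ⟨x, rfl, rfl⟩

theorem lt_low {w : ℝ → ℝ} (hw : IsMod w) {ε K : ℝ} (hε : 0 < ε) (hK : 0 < K) {φ : I → I}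
    (hφ : HasMod w K φ) (x : I) :
    cell ε (φ x) - low φ ε (cell ε x) < ⌊K * w ε / ε⌋₊ + 2 := by
  obtain ⟨z, hz1, hz2⟩ : low φ ε (cell ε x) ∈
      {l | ∃ z : I, cell ε z = cell ε x ∧ cell ε (φ z) = l} := Nat.sInf_mem ⟨_, x, rfl, rfl⟩
  have := window hw hε hK hφ hz1.symm
  rw [hz2] at this
  omega

theorem card_le {w : ℝ → ℝ} (hw : IsMod w) {ε K : ℝ} (hε : 0 < ε) (hK : 0 < K) {φ : I → I}
    (hφ : HasMod w K φ) (n : ℕ) (A : Finset I) (hA : Separated φ n ε A) :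
    A.card ≤ (⌊1 / ε⌋₊ + 1) * (⌊K * w ε / ε⌋₊ + 2) ^ n := by
  have hc : ∀ x : I, cell ε x < ⌊1 / ε⌋₊ + 1 := by
    intro x
    apply Nat.lt_succ_of_le
    apply Nat.floor_le_floor
    apply div_le_div_of_nonneg_right x.2.2 hε.le
  let F : I → Fin (⌊1 / ε⌋₊ + 1) × (Fin n → Fin (⌊K * w ε / ε⌋₊ + 2)) := fun x =>
    (⟨cell ε x, hc x⟩, fun j => ⟨cell ε (φ (φ^[j] x)) - low φ ε (cell ε (φ^[j] x)),
      lt_low hw hε hK hφ (φ^[j] x)⟩)
  have hinj : Set.InjOn F (A : Set I) := by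
    intro x hx y hy hxy
    by_contra hne
    have hsep := hA x hx y hy hne
    have h0 : cell ε x = cell ε y := by
      have := congrArg (fun p => (p.1 : ℕ)) hxy
      exact this
    have hstep : ∀ j : Fin n, cell ε (φ (φ^[j] x)) - low φ ε (cell ε (φ^[j] x)) =
        cell ε (φ (φ^[j] y)) - low φ ε (cell ε (φ^[j] y)) := by
      intro j
      have := congrArg (fun p => ((p.2 j : Fin _) : ℕ)) hxy
      exact this
    have hall : ∀ j : ℕ, j ≤ n → cell ε (φ^[j] x) = cell ε (φ^[j] y) := by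
      intro j
      induction j with
      | zero => intro _; simpa using h0
      | succ j ih =>
        intro hj
        have ih' := ih (by omega)
        have h1 := hstep ⟨j, by omega⟩
        simp only at h1
        have h2 := low_le φ ε (φ^[j] x)
        have h3 := low_le φ ε (φ^[j] y)
        rw [Function.iterate_succ_apply', Function.iterate_succ_apply']
        rw [← ih'] at h1 h3
        omega
    have : dn φ n x y ≤ ε := by
      apply Real.iSup_le _ hε.le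
      intro j
      exact (cell_close hε (hall j j.2.le)).le
    linarith
  have h := Finset.card_le_card_of_injOn F (s := A) (t := Finset.univ) (fun _ _ => by simp) hinj
  simpa using h

theorem sepN_le {w : ℝ → ℝ} (hw : IsMod w) {ε K : ℝ} (hε : 0 < ε) (hK : 0 < K) {φ : I → I}
    (hφ : HasMod w K φ) (n : ℕ) :
    sepN φ n ε ≤ (((⌊1 / ε⌋₊ + 1) * (⌊K * w ε / ε⌋₊ + 2) ^ n : ℕ) : ENNReal) := by
  apply iSup_le
  rintro ⟨A, hA⟩
  exact_mod_cast card_le hw hε hK hφ n A hA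

theorem log_nat (N : ℕ) (hN : 0 < N) : ENNReal.log (N : ENNReal) = ((Real.log N : ℝ) : EReal) := by
  have h1 : ((N : ℕ) : ENNReal) ≠ 0 := by exact_mod_cast hN.ne'
  rw [ENNReal.log_pos_real h1 (ENNReal.natCast_ne_top N)]
  simp

theorem sepRate_le {w : ℝ → ℝ} (hw : IsMod w) {ε K : ℝ} (hε : 0 < ε) (hK : 0 < K) {φ : I → I}
    (hφ : HasMod w K φ) :
    sepRate φ ε ≤ ((Real.log ((⌊K * w ε / ε⌋₊ + 2 : ℕ) : ℝ) : ℝ) : EReal) := by
  set N : ℕ := ⌊1 / ε⌋₊ + 1 with hN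
  set M : ℕ := ⌊K * w ε / ε⌋₊ + 2 with hM
  have hNpos : 0 < N := Nat.succ_pos _
  have hMpos : 0 < M := by omega
  have key : ∀ n : ℕ, 1 ≤ n → ENNReal.log (sepN φ n ε) / ((n : ℝ) : EReal) ≤
      ((Real.log N / n + Real.log M : ℝ) : EReal) := by
    intro n hn
    have hn' : (0 : ℝ) < n := by exact_mod_cast hn
    have h1 := ENNReal.log_monotone (sepN_le hw hε hK hφ n)
    rw [← hN, ← hM, log_nat _ (by positivity)] at h1
    have h2 : ENNReal.log (sepN φ n ε) / ((n : ℝ) : EReal) ≤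
        ((Real.log ((N * M ^ n : ℕ) : ℝ) : ℝ) : EReal) / ((n : ℝ) : EReal) := by
      apply EReal.div_le_div_right_of_nonneg _ h1
      exact_mod_cast hn'.le
    refine h2.trans ?_
    rw [← EReal.coe_div]
    apply le_of_eq
    congr 1
    push_cast
    rw [Real.log_mul (by positivity) (by positivity), Real.log_pow]
    field_simp
  have hlim : Tendsto (fun n : ℕ => ((Real.log N / n + Real.log M : ℝ) : EReal)) atTop
      (𝓝 ((Real.log M : ℝ) : EReal)) := by
    apply (continuous_coe_real_ereal.tendsto _).comp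
    have : Tendsto (fun n : ℕ => Real.log N / (n : ℝ) + Real.log M) atTop
        (𝓝 (0 + Real.log M)) :=
      (tendsto_const_div_atTop_nhds_zero_nat (Real.log N)).add_const (Real.log M)
    simpa using this
  calc sepRate φ ε ≤ limsup (fun n : ℕ => ((Real.log N / n + Real.log M : ℝ) : EReal)) atTop := by
        refine limsup_le_limsup ?_
        filter_upwards [eventually_ge_atTop 1] with n hn
        exact key n hn
    _ = ((Real.log M : ℝ) : EReal) := hlim.limsup_eq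

theorem slope {w : ℝ → ℝ} (hw : IsMod w) {t : ℝ} (h0 : 0 < t) (h1 : t ≤ 1) : w 1 ≤ w t / t := by
  rw [le_div_iff₀ h0]
  have h := hw.conc.2 (show (1 : ℝ) ∈ Set.Ici 0 from Set.mem_Ici.2 zero_le_one)
    (show (0 : ℝ) ∈ Set.Ici 0 from Set.mem_Ici.2 le_rfl) h0.le (by linarith : 0 ≤ 1 - t) (by ring)
  simp only [smul_eq_mul, mul_one, mul_zero, add_zero, hw.zero] at h
  linarith

end UbAux

open Filter Topology UbAux

theorem ub : S_UB := by
  intro w hw φ K hK hφ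
  set c : ℝ := K + 2 / w 1 with hc
  have hw1 := hw.pos
  have hcpos : 0 < c := by positivity
  have key : ∀ ε : ℝ, 0 < ε → ε < 1 → sepRate φ ε / ((|Real.log ε| : ℝ) : EReal) ≤
      ((Real.log c / |Real.log ε| + Real.log (w ε / ε) / |Real.log ε| : ℝ) : EReal) := by
    intro ε hε hε1
    have hlog : Real.log ε < 0 := Real.log_neg hε hε1
    have habs : |Real.log ε| = - Real.log ε := abs_of_neg hlog
    have hpos : 0 < |Real.log ε| := by rw [habs]; linarith
    have h1 := sepRate_le hw hε hK hφ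
    have hs := slope hw hε hε1.le
    have hwe : 0 < w ε / ε := lt_of_lt_of_le hw1 hs
    have hM : ((⌊K * w ε / ε⌋₊ + 2 : ℕ) : ℝ) ≤ c * (w ε / ε) := by
      push_cast
      have h2 : (⌊K * w ε / ε⌋₊ : ℝ) ≤ K * w ε / ε :=
        Nat.floor_le (by rw [mul_div_assoc]; positivity)
      have h3 : 2 ≤ 2 / w 1 * (w ε / ε) := by
        rw [div_mul_eq_mul_div, le_div_iff₀ hw1]
        nlinarith
      rw [hc, add_mul, ← mul_div_assoc]
      linarith
    have h5 : Real.log ((⌊K * w ε / ε⌋₊ + 2 : ℕ) : ℝ) ≤ Real.log c + Real.log (w ε / ε) := by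
      rw [← Real.log_mul hcpos.ne' hwe.ne']
      exact Real.log_le_log (by positivity) hM
    have h7 : sepRate φ ε / ((|Real.log ε| : ℝ) : EReal) ≤
        ((Real.log ((⌊K * w ε / ε⌋₊ + 2 : ℕ) : ℝ) : ℝ) : EReal) / ((|Real.log ε| : ℝ) : EReal) :=
      EReal.div_le_div_right_of_nonneg (by exact_mod_cast hpos.le) h1
    refine h7.trans ?_
    rw [← EReal.coe_div]
    apply EReal.coe_le_coe_iff.2
    rw [← add_div]
    exact div_le_div_of_nonneg_right h5 hpos.le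
  have hlim : Tendsto (fun ε : ℝ => Real.log c / |Real.log ε|) (𝓝[>] 0) (𝓝 0) := by
    have h1 : Tendsto (fun ε : ℝ => |Real.log ε|) (𝓝[>] 0) atTop :=
      tendsto_abs_atBot_atTop.comp Real.tendsto_log_nhdsGT_zero
    exact Tendsto.const_div_atTop h1 _
  have hmem : Set.Ioo (0 : ℝ) 1 ∈ 𝓝[>] (0 : ℝ) := Ioo_mem_nhdsGT one_pos
  refine EReal.le_of_forall_lt_iff_le.1 fun z hz => ?_
  obtain ⟨z', hz1, hz2⟩ := EReal.lt_iff_exists_real_btwn.1 hz
  have hz3 : z' < z := by exact_mod_cast hz2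
  have h1 : ∀ᶠ ε : ℝ in 𝓝[>] 0,
      ((Real.log (w ε / ε) / |Real.log ε| : ℝ) : EReal) < (z' : EReal) :=
    eventually_lt_of_limsup_lt hz1
  refine limsup_le_of_le (h := ?_)
  filter_upwards [hmem, hlim.eventually (gt_mem_nhds (show (0 : ℝ) < z - z' by linarith)), h1]
    with ε hε h2 h3
  refine (key ε hε.1 hε.2).trans ?_
  apply EReal.coe_le_coe_iff.2
  have h4 : Real.log (w ε / ε) / |Real.log ε| < z' := by exact_mod_cast h3
  linarith

end Pool.Agent.K9h65.MD
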