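import Pool.Agent.K9h65.MD.Stm2
import Pool.Agent.K9h65.MD.Ub

/-! Leaf UP: pointwise upper bound; and nonnegativity of the rate. -/

set_option autoImplicit false

namespace Pool.Agent.K9h65.MD

open Filter Topology UbAux

theorem up : S_UP := by
  intro w hw φ K hK hφ
  set c : ℝ := K + 2 / w 1 with hc
  have hw1 := hw.pos
  have hcpos : 0 < c := by positivity
  refine ⟨Real.log c, fun ε hε hε1 => ?_⟩
  have h1 := sepRate_le hw hε hK hφ
  have hs := slope hw hε hε1.le
  have hwe : 0 < w ε / ε := lt_of_lt_of_le hw1 hs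
  have hM : ((⌊K * w ε / ε⌋₊ + 2 : ℕ) : ℝ) ≤ c * (w ε / ε) := by
    push_cast
    have h2 : (⌊K * w ε / ε⌋₊ : ℝ) ≤ K * w ε / ε :=
      Nat.floor_le (by rw [mul_div_assoc]; positivity)
    have h3 : 2 ≤ 2 / w 1 * (w ε / ε) := by
      rw [div_mul_eq_mul_div, le_div_iff₀ hw1]
      nlinarith
    rw [hc, add_mul, ← mul_div_assoc]
    linarith
  have h5 : Real.log ((⌊K * w ε / ε⌋₊ + 2 : ℕ) : ℝ) ≤ Real.log (w ε / ε) + Real.log c := by
    rw [add_comm (Real.log (w ε / ε)), ← Real.log_mul hcpos.ne' hwe.ne']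
    exact Real.log_le_log (by positivity) hM
  exact h1.trans (EReal.coe_le_coe_iff.2 h5)

theorem rate_nonneg (φ : I → I) (ε : ℝ) : 0 ≤ sepRate φ ε := by
  have h1 : ∀ n : ℕ, (1 : ENNReal) ≤ sepN φ n ε := by
    intro n
    have hA : Separated φ n ε {⟨0, by simp⟩} := by
      intro x hx y hy hxy
      rw [Finset.mem_singleton] at hx hy
      exact absurd (hx.trans hy.symm) hxy
    refine le_trans ?_ (le_iSup (fun A : {A : Finset I // Separated φ n ε A} =>
      ((A.1.card : ℕ) : ENNReal)) ⟨_, hA⟩)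
    simp
  have h2 : ∀ n : ℕ, 0 ≤ ENNReal.log (sepN φ n ε) / ((n : ℝ) : EReal) := by
    intro n
    refine EReal.div_nonneg ?_ (by exact_mod_cast Nat.cast_nonneg n)
    have := ENNReal.log_monotone (h1 n)
    rwa [ENNReal.log_one] at this
  refine le_limsup_of_frequently_le ?_
  exact (Eventually.of_forall h2).frequently

end Pool.Agent.K9h65.MD
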